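import Mathlib
import Pool.Agent.Work.MP_f3d170_co_h45.Defs
import Pool.Agent.Work.MP_f3d170_co_helper60.LowCount

set_option autoImplicit false

open Set Matroid
open Pool.Agent.Work.MP_f3d170_co_h45 (RankMatroid)
open Pool.Agent.Work.MP_f3d170_co_helper60

namespace Pool.Agent.Work.MP_f3d170_co_helper60b

variable {n s : ℕ}

/-- The nontrivial blocks of a paving matroid of rank `s + 1`. -/
def IsPart (s : ℕ) (𝒲 : Set (Set (Fin n))) : Prop :=
  (∀ P ∈ 𝒲, s + 1 ≤ P.ncard) ∧ ∀ P ∈ 𝒲, ∀ Q ∈ 𝒲, s ≤ (P ∩ Q).ncard → P = Q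

/-- The bases of the paving matroid. -/
def PBase (s : ℕ) (𝒲 : Set (Set (Fin n))) (B : Set (Fin n)) : Prop :=
  B.ncard = s + 1 ∧ ∀ P ∈ 𝒲, ¬ B ⊆ P

lemma pBase_exchange {𝒲 : Set (Set (Fin n))} (h : IsPart s 𝒲) :
    Matroid.ExchangeProperty (PBase s 𝒲) := by
  rintro X Y ⟨hX1, hX2⟩ ⟨hY1, hY2⟩ a ⟨haX, haY⟩
  by_contra hcon
  have hT : (X \ {a}).ncard = s := by
    rw [Set.ncard_sdiff_singleton_of_mem haX]; omega
  have hall : ∀ b ∈ Y \ X, ∃ P ∈ 𝒲, insert b (X \ {a}) ⊆ P := by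
    intro b hb
    by_contra h'
    push Not at h'
    apply hcon
    refine ⟨b, hb, ?_, h'⟩
    rw [Set.ncard_insert_of_notMem (fun h => hb.2 h.1) (Set.toFinite _), hT]
  have hne : (Y \ X).Nonempty := by
    by_contra hemp
    rw [Set.not_nonempty_iff_eq_empty, Set.sdiff_eq_empty] at hemp
    have : Y = X := Set.eq_of_subset_of_ncard_le hemp (by omega) (Set.toFinite X)
    rw [this] at haY
    exact haY haX
  obtain ⟨b, hb⟩ := hne
  obtain ⟨P, hP, hbP⟩ := hall b hb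
  apply hY2 P hP
  intro y hy
  by_cases hyX : y ∈ X
  · apply hbP
    right
    refine ⟨hyX, ?_⟩
    rintro rfl
    exact haY hy
  · obtain ⟨Q, hQ, hyQ⟩ := hall y ⟨hy, hyX⟩
    have hPQ : P = Q := by
      refine h.2 P hP Q hQ ?_
      rw [← hT]
      refine Set.ncard_le_ncard ?_ (Set.toFinite _)
      intro z hz
      exact ⟨hbP (Set.mem_insert_of_mem _ hz), hyQ (Set.mem_insert_of_mem _ hz)⟩
    rw [hPQ]
    exact hyQ (Set.mem_insert _ _)

/-- The paving matroid. -/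
def PM {𝒲 : Set (Set (Fin n))} (h : IsPart s 𝒲) (hB : ∃ B, PBase s 𝒲 B) : Matroid (Fin n) :=
  Matroid.ofIsBaseOfFinite (Set.toFinite Set.univ) (PBase s 𝒲) hB (pBase_exchange h)
    (fun _ _ => Set.subset_univ _)

lemma PM_isBase {𝒲 : Set (Set (Fin n))} (h : IsPart s 𝒲) (hB : ∃ B, PBase s 𝒲 B)
    (B : Set (Fin n)) : (PM h hB).IsBase B ↔ PBase s 𝒲 B := Iff.rfl

lemma PM_E {𝒲 : Set (Set (Fin n))} (h : IsPart s 𝒲) (hB : ∃ B, PBase s 𝒲 B) :
    (PM h hB).E = Set.univ := rfl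

lemma PM_eRank {𝒲 : Set (Set (Fin n))} (h : IsPart s 𝒲) (hB : ∃ B, PBase s 𝒲 B) :
    (PM h hB).eRank = (s + 1 : ℕ) := by
  obtain ⟨B, hB'⟩ := (PM h hB).exists_isBase
  rw [← hB'.encard_eq_eRank, ← (Set.toFinite B).cast_ncard_eq, ((PM_isBase h hB B).1 hB').1]

lemma eq_singleton_univ {𝒲 : Set (Set (Fin n))} (h : IsPart s 𝒲) (hn : s + 1 ≤ n)
    (hB : ¬ ∃ B, PBase s 𝒲 B) : 𝒲 = {Set.univ} := by
  unfold PBase at hB
  push Not at hB
  obtain ⟨A, -, hA⟩ := Set.exists_subset_card_eq (s := (Set.univ : Set (Fin n))) (n := s + 1)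
    (by rw [Set.ncard_univ, Nat.card_fin]; exact hn)
  obtain ⟨P, hP, -⟩ := hB A hA
  have hPu : P = Set.univ := by
    by_contra hne
    obtain ⟨y, hy⟩ := (Set.ne_univ_iff_exists_notMem P).1 hne
    obtain ⟨T, hTP, hT⟩ := Set.exists_subset_card_eq (s := P) (n := s)
      (by have := h.1 P hP; omega)
    obtain ⟨Q, hQ, hQ'⟩ := hB (insert y T) (by
      rw [Set.ncard_insert_of_notMem (fun hh => hy (hTP hh)) (Set.toFinite _), hT])
    have hPQ : P = Q := by
      refine h.2 P hP Q hQ ?_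
      rw [← hT]
      refine Set.ncard_le_ncard ?_ (Set.toFinite _)
      intro z hz
      exact ⟨hTP hz, hQ' (Set.mem_insert_of_mem _ hz)⟩
    apply hy
    rw [hPQ]
    exact hQ' (Set.mem_insert _ _)
  subst hPu
  refine Set.eq_singleton_iff_unique_mem.2 ⟨hP, ?_⟩
  intro Q hQ
  refine h.2 Q hQ _ hP ?_
  rw [Set.inter_univ]
  have := h.1 Q hQ
  omega

/-- A block is determined by the covered sets. -/
lemma block_sub {𝒲 𝒲' : Set (Set (Fin n))} (h : IsPart s 𝒲) (h' : IsPart s 𝒲')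
    (hcov : ∀ B : Set (Fin n), B.ncard = s + 1 → ((∃ P ∈ 𝒲, B ⊆ P) ↔ ∃ P ∈ 𝒲', B ⊆ P)) :
    ∀ P ∈ 𝒲, ∃ Q ∈ 𝒲', P ⊆ Q := by
  intro P hP
  have hPc := h.1 P hP
  obtain ⟨T, hTP, hT⟩ := Set.exists_subset_card_eq (s := P) (n := s) (by omega)
  have hsucc : ∀ y ∈ P, y ∉ T → ∃ Q ∈ 𝒲', insert y T ⊆ Q := by
    intro y hy hyT
    refine (hcov (insert y T) ?_).1 ⟨P, hP, Set.insert_subset hy hTP⟩
    rw [Set.ncard_insert_of_notMem hyT (Set.toFinite _), hT]
  obtain ⟨y, hy, hyT⟩ : ∃ y ∈ P, y ∉ T := by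
    by_contra hcon
    push Not at hcon
    have := Set.ncard_le_ncard (show P ⊆ T from hcon) (Set.toFinite _)
    omega
  obtain ⟨Q, hQ, hQ'⟩ := hsucc y hy hyT
  refine ⟨Q, hQ, ?_⟩
  intro z hz
  by_cases hzT : z ∈ T
  · exact hQ' (Set.mem_insert_of_mem _ hzT)
  · obtain ⟨Q₂, hQ₂, hQ₂'⟩ := hsucc z hz hzT
    have : Q = Q₂ := by
      refine h'.2 Q hQ Q₂ hQ₂ ?_
      rw [← hT]
      refine Set.ncard_le_ncard ?_ (Set.toFinite _)
      intro w hw
      exact ⟨hQ' (Set.mem_insert_of_mem _ hw), hQ₂' (Set.mem_insert_of_mem _ hw)⟩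
    rw [this]
    exact hQ₂' (Set.mem_insert _ _)

lemma part_sub {𝒲 𝒲' : Set (Set (Fin n))} (h : IsPart s 𝒲) (h' : IsPart s 𝒲')
    (hcov : ∀ B : Set (Fin n), B.ncard = s + 1 → ((∃ P ∈ 𝒲, B ⊆ P) ↔ ∃ P ∈ 𝒲', B ⊆ P)) :
    𝒲 ⊆ 𝒲' := by
  intro P hP
  obtain ⟨Q, hQ, hPQ⟩ := block_sub h h' hcov P hP
  obtain ⟨P₂, hP₂, hQP⟩ := block_sub h' h (fun B hB => (hcov B hB).symm) Q hQ
  have h1 : P = P₂ := by
    refine h.2 P hP P₂ hP₂ ?_
    rw [Set.inter_eq_self_of_subset_left (hPQ.trans hQP)]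
    have := h.1 P hP
    omega
  subst h1
  rw [Set.Subset.antisymm hPQ hQP]
  exact hQ

/-- The number of block families is at most one more than the number of matroids. -/
theorem card_part_le (hn : s + 1 ≤ n) [Finite (RankMatroid n (s + 1))] :
    Nat.card {𝒲 : Set (Set (Fin n)) // IsPart s 𝒲} ≤ Nat.card (RankMatroid n (s + 1)) + 1 := by
  classical
  rw [← Finite.card_option]
  refine Nat.card_le_card_of_injective (fun 𝒲 : {𝒲 : Set (Set (Fin n)) // IsPart s 𝒲} =>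
    (if hB : ∃ B, PBase s 𝒲.1 B then some ⟨PM 𝒲.2 hB, PM_E 𝒲.2 hB, PM_eRank 𝒲.2 hB⟩ else none :
      Option (RankMatroid n (s + 1)))) ?_
  rintro ⟨𝒲, h⟩ ⟨𝒲', h'⟩ heq
  apply Subtype.ext
  dsimp only at heq ⊢
  by_cases hB : ∃ B, PBase s 𝒲 B
  · by_cases hB' : ∃ B, PBase s 𝒲' B
    · rw [dif_pos hB, dif_pos hB', Option.some.injEq] at heq
      replace heq : PM h hB = PM h' hB' := congrArg (fun X : RankMatroid n (s + 1) => X.1) heq
      have hcov : ∀ B : Set (Fin n), B.ncard = s + 1 →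
          ((∃ P ∈ 𝒲, B ⊆ P) ↔ ∃ P ∈ 𝒲', B ⊆ P) := by
        intro B hBc
        have h1 : PBase s 𝒲 B ↔ PBase s 𝒲' B := by
          rw [← PM_isBase h hB, heq, PM_isBase h' hB']
        unfold PBase at h1
        constructor
        · intro h2
          by_contra h3
          push Not at h3
          obtain ⟨P, hP, hBP⟩ := h2
          exact (h1.2 ⟨hBc, h3⟩).2 P hP hBP
        · intro h2
          by_contra h3
          push Not at h3
          obtain ⟨P, hP, hBP⟩ := h2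
          exact (h1.1 ⟨hBc, h3⟩).2 P hP hBP
      exact Set.Subset.antisymm (part_sub h h' hcov)
        (part_sub h' h (fun B hB => (hcov B hB).symm))
    · rw [dif_pos hB, dif_neg hB'] at heq
      exact absurd heq (by simp)
  · by_cases hB' : ∃ B, PBase s 𝒲' B
    · rw [dif_neg hB, dif_pos hB'] at heq
      exact absurd heq (by simp)
    · rw [eq_singleton_univ h hn hB, eq_singleton_univ h' hn hB']

/-! ### Large stable subfamilies -/

/-- The sum of the elements of a set modulo `n`. -/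
noncomputable def colour (X : Set (Fin n)) : ZMod n := ∑ᶠ x ∈ X, ((x : ℕ) : ZMod n)

lemma colour_insert {X : Set (Fin n)} {a : Fin n} (ha : a ∉ X) :
    colour (insert a X) = ((a : ℕ) : ZMod n) + colour X := by
  unfold colour
  rw [finsum_mem_insert _ ha (Set.toFinite X)]

lemma eq_of_colour {X Y : Set (Fin n)} (hX : X.ncard = s + 1) (hY : Y.ncard = s + 1)
    (hXY : s ≤ (X ∩ Y).ncard) (hc : colour X = colour Y) : X = Y := by
  by_contra hne
  have h1 : (X ∩ Y).ncard ≤ s := by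
    by_contra hcon
    push Not at hcon
    have h2 : X ∩ Y = X := Set.eq_of_subset_of_ncard_le Set.inter_subset_left (by omega)
      (Set.toFinite X)
    have h3 : X ∩ Y = Y := Set.eq_of_subset_of_ncard_le Set.inter_subset_right (by omega)
      (Set.toFinite Y)
    exact hne (h2.symm.trans h3)
  have hXYc : (X ∩ Y).ncard = s := le_antisymm h1 hXY
  have key : ∀ Z : Set (Fin n), X ∩ Y ⊆ Z → Z.ncard = s + 1 → ∃ a ∉ X ∩ Y,
      Z = insert a (X ∩ Y) := by
    intro Z hZ hZc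
    have : (Z \ (X ∩ Y)).ncard = 1 := by
      rw [Set.ncard_sdiff hZ (Set.toFinite _)]; omega
    obtain ⟨a, ha⟩ := Set.ncard_eq_one.1 this
    have haZ : a ∈ Z \ (X ∩ Y) := by rw [ha]; rfl
    refine ⟨a, haZ.2, ?_⟩
    rw [← Set.union_sdiff_cancel hZ, ha, Set.union_singleton]
  obtain ⟨a, ha, hXa⟩ := key X Set.inter_subset_left hX
  obtain ⟨b, hb, hYb⟩ := key Y Set.inter_subset_right hY
  have e1 := congrArg colour hXa
  have e2 := congrArg colour hYb
  rw [colour_insert ha] at e1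
  rw [colour_insert hb] at e2
  rw [e1, e2] at hc
  have h2 : ((a : ℕ) : ZMod n) = ((b : ℕ) : ZMod n) := add_right_cancel hc
  rw [ZMod.natCast_eq_natCast_iff'] at h2
  rw [Nat.mod_eq_of_lt a.2, Nat.mod_eq_of_lt b.2] at h2
  have h3 : a = b := Fin.ext h2
  apply hne
  subst h3
  exact hXa.trans hYb.symm

/-- Every family of `(s+1)`-sets contains a large stable subfamily. -/
theorem exists_stable (hn : 0 < n) {𝒳 : Set (Set (Fin n))} (h𝒳 : ∀ X ∈ 𝒳, X.ncard = s + 1)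
    {g : ℕ} (hg : n * g ≤ 𝒳.ncard) :
    ∃ ι : Fin g → Set (Fin n), Function.Injective ι ∧ (∀ k, ι k ∈ 𝒳) ∧
      ∀ k l, s ≤ (ι k ∩ ι l).ncard → ι k = ι l := by
  classical
  have : NeZero n := ⟨by omega⟩
  have : Fintype (ZMod n) := ZMod.fintype n
  obtain ⟨y, -, hy⟩ := Finset.exists_le_card_fiber_of_mul_le_card_of_maps_to
    (s := 𝒳.toFinset) (t := (Finset.univ : Finset (ZMod n))) (f := colour) (n := g)
    (fun _ _ => Finset.mem_univ _) Finset.univ_nonempty (by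
      rw [Finset.card_univ, ZMod.card, ← Set.ncard_eq_toFinset_card']; exact hg)
  obtain ⟨F, hF, hFc⟩ := Finset.exists_subset_card_eq hy
  have e := Finset.equivFinOfCardEq hFc
  have hmem : ∀ k, (e.symm k : Set (Fin n)) ∈ 𝒳 ∧ colour (e.symm k : Set (Fin n)) = y := by
    intro k
    have := hF (e.symm k).2
    rw [Finset.mem_filter, Set.mem_toFinset] at this
    exact this
  refine ⟨fun k => (e.symm k : Set (Fin n)), ?_, fun k => (hmem k).1, ?_⟩
  · intro k l hkl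
    exact e.symm.injective (Subtype.ext hkl)
  · intro k l hkl
    exact eq_of_colour (h𝒳 _ (hmem k).1) (h𝒳 _ (hmem l).1) hkl ((hmem k).2.trans (hmem l).2.symm)

end Pool.Agent.Work.MP_f3d170_co_helper60b
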