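import Mathlib
import Pool.Agent.Work.MP_f3d170_co_h45.Defs
import Pool.Agent.Work.MP_f3d170_co_helper60.Regular
import Pool.Agent.Work.MP_f3d170_co_helper60b.Part

set_option autoImplicit false

open Set Matroid
open Pool.Agent.Work.MP_f3d170_co_h45 (RankMatroid)
open Pool.Agent.Work.MP_f3d170_co_helper60

namespace Pool.Agent.Work.MP_f3d170_co_helper60b

variable {n s : ℕ}

/-- The truncation to rank `s`. -/
def trunc (M : Matroid (Fin n)) (s : ℕ) : Matroid (Fin n) :=
  (IndepMatroid.ofFinite (Set.toFinite M.E) (fun I => M.Indep I ∧ I.ncard ≤ s)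
    ⟨M.empty_indep, by simp⟩
    (fun I J hJ hIJ => ⟨hJ.1.subset hIJ, (Set.ncard_le_ncard hIJ (Set.toFinite J)).trans hJ.2⟩)
    (by
      rintro I J ⟨hI, hIs⟩ ⟨hJ, hJs⟩ hlt
      have h1 : I.encard < J.encard := by
        rw [← (Set.toFinite I).cast_ncard_eq, ← (Set.toFinite J).cast_ncard_eq]
        exact_mod_cast hlt
      obtain ⟨e, he, heI⟩ := hI.exists_insert_of_encard_lt hJ h1
      refine ⟨e, he.1, he.2, heI, ?_⟩
      rw [Set.ncard_insert_of_notMem he.2 (Set.toFinite _)]
      omega)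
    (fun I hI => hI.1.subset_ground)).matroid

lemma trunc_indep {M : Matroid (Fin n)} {I : Set (Fin n)} :
    (trunc M s).Indep I ↔ M.Indep I ∧ I.ncard ≤ s := by
  simp [trunc]

lemma trunc_eRank (M : Matroid (Fin n)) : (trunc M s).eRank ≤ s := by
  obtain ⟨B, hB⟩ := (trunc M s).exists_isBase
  rw [← hB.encard_eq_eRank, ← (Set.toFinite B).cast_ncard_eq]
  exact_mod_cast (trunc_indep.1 hB.indep).2

/-- All `s`-subsets of `A` are independent. -/
def Gen (T : Matroid (Fin n)) (s : ℕ) (A : Set (Fin n)) : Prop :=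
  ∀ S ⊆ A, S.ncard = s → T.Indep S

lemma gen_trunc {M : Matroid (Fin n)} {A : Set (Fin n)} : Gen (trunc M s) s A ↔ Gen M s A := by
  constructor
  · intro h S hS hSc
    exact (trunc_indep.1 (h S hS hSc)).1
  · intro h S hS hSc
    exact trunc_indep.2 ⟨h S hS hSc, hSc.le⟩

/-- Hyperplanes. -/
def IsHyp (M : Matroid (Fin n)) (s : ℕ) (P : Set (Fin n)) : Prop :=
  M.closure P = P ∧ rk M P = s

lemma closure_isHyp {M : Matroid (Fin n)} {S : Set (Fin n)} (hS : rk M S = s) :
    IsHyp M s (M.closure S) := by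
  refine ⟨M.closure_closure S, ?_⟩
  rw [rk_closure, hS]

lemma IsHyp.eq_closure {M : Matroid (Fin n)} (_hE : M.E = Set.univ) {P : Set (Fin n)}
    (hP : IsHyp M s P) {S : Set (Fin n)} (hSP : S ⊆ P) (hS : s ≤ rk M S) : P = M.closure S := by
  have h1 := closure_eq_of_rk hSP (by rw [hP.2]; exact hS)
  rw [h1, hP.1]

/-- The chosen generic subset. -/
def StarSet (M : Matroid (Fin n)) (s : ℕ) (P A : Set (Fin n)) : Prop :=
  A ⊆ P ∧ s + 1 ≤ A.ncard ∧ Gen M s A ∧ ∀ z ∈ P, z ∉ A → ¬ Gen M s (insert z A)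

/-- The existence of a generic subset of size `s + 1`. -/
def HasGen (M : Matroid (Fin n)) (s : ℕ) (P : Set (Fin n)) : Prop :=
  ∃ A ⊆ P, s + 1 ≤ A.ncard ∧ Gen M s A

lemma exists_starSet {M : Matroid (Fin n)} {P : Set (Fin n)} (h : HasGen M s P) :
    ∃ A, StarSet M s P A := by
  obtain ⟨A₀, hA₀⟩ := h
  obtain ⟨A, hA, hmax⟩ := Set.exists_max_image {A : Set (Fin n) | A ⊆ P ∧ s + 1 ≤ A.ncard ∧
    Gen M s A} Set.ncard (Set.toFinite _) ⟨A₀, hA₀⟩
  refine ⟨A, hA.1, hA.2.1, hA.2.2, ?_⟩
  intro z hz hzA hgen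
  have h1 := hmax (insert z A) ⟨Set.insert_subset hz hA.1, ?_, hgen⟩
  · rw [Set.ncard_insert_of_notMem hzA (Set.toFinite _)] at h1
    omega
  · rw [Set.ncard_insert_of_notMem hzA (Set.toFinite _)]
    have := hA.2.1
    omega

open Classical in
/-- A choice of generic subsets. -/
noncomputable def star (M : Matroid (Fin n)) (s : ℕ) (P : Set (Fin n)) : Set (Fin n) :=
  if h : HasGen M s P then (exists_starSet h).choose else ∅

lemma star_spec {M : Matroid (Fin n)} {P : Set (Fin n)} (h : HasGen M s P) :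
    StarSet M s P (star M s P) := by
  unfold star
  rw [dif_pos h]
  exact (exists_starSet h).choose_spec

/-- The blocks of `M`, without the hyperplane `H`. -/
def Blocks (M : Matroid (Fin n)) (s : ℕ) (H : Set (Fin n)) : Set (Set (Fin n)) :=
  {A | ∃ P, IsHyp M s P ∧ P ≠ H ∧ HasGen M s P ∧ A = star M s P}

/-- The sets which may be added. -/
def Room (T : Matroid (Fin n)) (s : ℕ) (H : Set (Fin n)) : Set (Set (Fin n)) :=
  {X | X.ncard = s + 1 ∧ (X ⊆ H ∨ ∀ S ⊆ X, S.ncard = s → ¬ T.Indep S)}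

lemma blocks_disjoint_room {M : Matroid (Fin n)} (hE : M.E = Set.univ) {H : Set (Fin n)}
    (hH : H = ∅ ∨ IsHyp M s H) {A X : Set (Fin n)} (hA : A ∈ Blocks M s H)
    (hX : X ∈ Room (trunc M s) s H) : (A ∩ X).ncard < s := by
  by_contra hcon
  push Not at hcon
  obtain ⟨S, hS, hSc⟩ := Set.exists_subset_card_eq hcon
  obtain ⟨P, hP, hPH, hgen, rfl⟩ := hA
  have hst := star_spec hgen
  have hSind : M.Indep S := hst.2.2.1 S (hS.trans Set.inter_subset_left) hSc
  have hrk : rk M S = s := by rw [indep_iff_rk.1 hSind, hSc]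
  rcases hX.2 with hXH | hXT
  · have hSH : S ⊆ H := (hS.trans Set.inter_subset_right).trans hXH
    have hHh : IsHyp M s H := by
      rcases hH with rfl | hH
      · exfalso
        have := Set.subset_eq_empty hXH rfl
        rw [this] at hX
        have := hX.1
        simp at this
      · exact hH
    apply hPH
    rw [hP.eq_closure hE ((hS.trans Set.inter_subset_left).trans hst.1) hrk.ge,
      hHh.eq_closure hE hSH hrk.ge]
  · exact hXT S (hS.trans Set.inter_subset_right) hSc (trunc_indep.2 ⟨hSind, hSc.le⟩)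

lemma isPart_blocks {M : Matroid (Fin n)} (hE : M.E = Set.univ) (H : Set (Fin n)) :
    IsPart s (Blocks M s H) := by
  constructor
  · rintro _ ⟨P, hP, hPH, hgen, rfl⟩
    exact (star_spec hgen).2.1
  · rintro _ ⟨P, hP, hPH, hgen, rfl⟩ _ ⟨Q, hQ, hQH, hgen', rfl⟩ hcard
    obtain ⟨S, hS, hSc⟩ := Set.exists_subset_card_eq hcard
    have hst := star_spec hgen
    have hst' := star_spec hgen'
    have hSind : M.Indep S := hst.2.2.1 S (hS.trans Set.inter_subset_left) hSc
    have hrk : rk M S = s := by rw [indep_iff_rk.1 hSind, hSc]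
    rw [hP.eq_closure hE ((hS.trans Set.inter_subset_left).trans hst.1) hrk.ge,
      hQ.eq_closure hE ((hS.trans Set.inter_subset_right).trans hst'.1) hrk.ge]

lemma isPart_union {M : Matroid (Fin n)} (hE : M.E = Set.univ) {H : Set (Fin n)}
    (hH : H = ∅ ∨ IsHyp M s H) {𝒟 : Set (Set (Fin n))} (h𝒟 : 𝒟 ⊆ Room (trunc M s) s H)
    (hst : ∀ X ∈ 𝒟, ∀ Y ∈ 𝒟, s ≤ (X ∩ Y).ncard → X = Y) : IsPart s (Blocks M s H ∪ 𝒟) := by
  have hb := isPart_blocks (s := s) hE H
  constructor
  · rintro P (hP | hP)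
    · exact hb.1 P hP
    · exact (h𝒟 hP).1.ge
  · rintro P (hP | hP) Q (hQ | hQ) hc
    · exact hb.2 P hP Q hQ hc
    · exact absurd (blocks_disjoint_room hE hH hP (h𝒟 hQ)) (not_lt.2 hc)
    · rw [Set.inter_comm] at hc
      exact absurd (blocks_disjoint_room hE hH hQ (h𝒟 hP)) (not_lt.2 hc)
    · exact hst P hP Q hQ hc

/-- Everything generated by a block. -/
def Rec (T : Matroid (Fin n)) (s : ℕ) (A : Set (Fin n)) : Set (Fin n) :=
  A ∪ {z | ∃ S ⊆ A, S.ncard + 1 = s ∧ z ∉ S ∧ ¬ T.Indep (insert z S)}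

lemma rec_subset {M : Matroid (Fin n)} (hE : M.E = Set.univ) {P A : Set (Fin n)}
    (hP : IsHyp M s P) (hA : StarSet M s P A) : Rec (trunc M s) s A ⊆ P := by
  rintro z (hz | ⟨S, hS, hSc, hzS, hz⟩)
  · exact hA.1 hz
  · have hSind : M.Indep S := by
      obtain ⟨S', hSS', hS'A, hS'c⟩ := Set.exists_subsuperset_card_eq hS (by omega : S.ncard ≤ s)
        (by have := hA.2.1; omega)
      exact (hA.2.2.1 S' hS'A hS'c).subset hSS'
    have hdep : ¬ M.Indep (insert z S) := by
      intro h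
      apply hz
      refine trunc_indep.2 ⟨h, ?_⟩
      rw [Set.ncard_insert_of_notMem hzS (Set.toFinite _)]
      omega
    rw [hSind.insert_indep_iff_of_notMem hzS] at hdep
    have hzcl : z ∈ M.closure S := by
      by_contra hcon
      exact hdep ⟨by rw [hE]; trivial, hcon⟩
    rw [← hP.1]
    exact M.closure_subset_closure (hS.trans hA.1) hzcl

lemma subset_rec {M : Matroid (Fin n)} {P A : Set (Fin n)}
    (hA : StarSet M s P A) : P ⊆ Rec (trunc M s) s A := by
  intro z hz
  by_cases hzA : z ∈ A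
  · exact Or.inl hzA
  · right
    have h1 := hA.2.2.2 z hz hzA
    unfold Gen at h1
    push Not at h1
    obtain ⟨S', hS', hS'c, hS'ind⟩ := h1
    have hzS' : z ∈ S' := by
      by_contra hcon
      apply hS'ind
      refine hA.2.2.1 S' ?_ hS'c
      intro x hx
      rcases hS' hx with rfl | h
      · exact absurd hx hcon
      · exact h
    refine ⟨S' \ {z}, ?_, ?_, fun h => h.2 rfl, ?_⟩
    · intro x hx
      rcases hS' hx.1 with h | h
      · exact absurd h hx.2
      · exact h
    · rw [Set.ncard_sdiff_singleton_of_mem hzS', hS'c]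
      have : 0 < S'.ncard := (Set.ncard_pos (Set.toFinite _)).2 ⟨z, hzS'⟩
      omega
    · rw [Set.insert_sdiff_singleton, Set.insert_eq_of_mem hzS']
      exact fun h => hS'ind (trunc_indep.1 h).1

/-- The dependent `(s+1)`-sets are determined by the truncation, the blocks and `H`. -/
lemma dep_iff {M : Matroid (Fin n)} (hE : M.E = Set.univ) {H : Set (Fin n)}
    (hH : H = ∅ ∨ IsHyp M s H) {X : Set (Fin n)} (hX : X.ncard = s + 1) :
    ¬ M.Indep X ↔ ¬ Gen (trunc M s) s X ∨ X ⊆ H ∨
      ∃ A ∈ Blocks M s H, X ⊆ Rec (trunc M s) s A := by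
  rw [gen_trunc]
  constructor
  · intro hdep
    by_cases hgen : Gen M s X
    · right
      obtain ⟨S, hSX, hSc⟩ := Set.exists_subset_card_eq (s := X) (n := s) (by omega)
      have hrkS : rk M S = s := by rw [indep_iff_rk.1 (hgen S hSX hSc), hSc]
      have h1 : s ≤ rk M X := by rw [← hrkS]; exact rk_mono M hSX
      have h2 : rk M X ≤ s := by
        have h3 := rk_le_ncard M X
        rw [indep_iff_rk] at hdep
        omega
      have hhyp : IsHyp M s (M.closure X) := closure_isHyp (le_antisymm h2 h1)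
      have hXcl : X ⊆ M.closure X := M.subset_closure X (by rw [hE]; exact Set.subset_univ _)
      by_cases hXH : M.closure X = H
      · left; rw [← hXH]; exact hXcl
      · right
        have hhas : HasGen M s (M.closure X) := ⟨X, hXcl, hX.ge, hgen⟩
        exact ⟨star M s (M.closure X), ⟨_, hhyp, hXH, hhas, rfl⟩,
          hXcl.trans (subset_rec (star_spec hhas))⟩
    · left; exact hgen
  · have hsub : ∀ P, IsHyp M s P → X ⊆ P → ¬ M.Indep X := by
      intro P hP hXP hind
      have h1 := rk_mono M hXP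
      rw [indep_iff_rk.1 hind, hP.2] at h1
      omega
    rintro (h | h | ⟨A, ⟨P, hP, hPH, hgen, rfl⟩, h⟩)
    · unfold Gen at h
      push Not at h
      obtain ⟨S, hSX, -, hS⟩ := h
      exact fun hind => hS (hind.subset hSX)
    · rcases hH with rfl | hH
      · have := Set.subset_eq_empty h rfl
        rw [this] at hX
        simp at hX
      · exact hsub H hH h
    · exact hsub P hP (h.trans (rec_subset hE hP (star_spec hgen)))

/-- A matroid is determined by its truncation, its blocks and `H`. -/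
theorem eq_of_blocks {M M' : Matroid (Fin n)} (hE : M.E = Set.univ) (hE' : M'.E = Set.univ)
    (hr : M.eRank = (s + 1 : ℕ)) (hr' : M'.eRank = (s + 1 : ℕ)) {H : Set (Fin n)}
    (hH : H = ∅ ∨ IsHyp M s H) (hH' : H = ∅ ∨ IsHyp M' s H)
    (ht : trunc M s = trunc M' s) (hb : Blocks M s H = Blocks M' s H) : M = M' := by
  have hbase : ∀ (N : Matroid (Fin n)), N.eRank = (s + 1 : ℕ) → ∀ B : Set (Fin n),
      N.IsBase B ↔ N.Indep B ∧ B.ncard = s + 1 := by
    intro N hrN B
    constructor
    · intro hB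
      refine ⟨hB.indep, ?_⟩
      have h1 := hB.encard_eq_eRank
      rw [hrN, ← (Set.toFinite B).cast_ncard_eq] at h1
      exact_mod_cast h1
    · rintro ⟨hI, hc⟩
      refine hI.isBase_of_eRk_ge (Set.toFinite B) ?_
      rw [hI.eRk_eq_encard, hrN, ← (Set.toFinite B).cast_ncard_eq, hc]
  refine Matroid.ext_isBase (by rw [hE, hE']) ?_
  intro B _
  rw [hbase M hr, hbase M' hr']
  refine and_congr_left fun hB => ?_
  rw [← not_iff_not, dep_iff hE hH hB, dep_iff hE' hH' hB, ht, hb]

end Pool.Agent.Work.MP_f3d170_co_helper60b
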