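import Mathlib
import Pool.Agent.Work.MP_f3d170_co_helper60.LowCount

set_option autoImplicit false

open Set Matroid
open Pool.Agent.Work.MP_f3d170_co_helper60

namespace Pool.Agent.Work.MP_f3d170_co_helper60b

/-- The matroids with ground set inside `A` and rank at most `ρ`. -/
def LR {n : ℕ} (A : Finset (Fin n)) (ρ : ℕ) : Type :=
  {M : Matroid (Fin n) // M.E ⊆ (A : Set (Fin n)) ∧ M.eRank ≤ ρ}

instance {n : ℕ} (A : Finset (Fin n)) (ρ : ℕ) : Finite (LR A ρ) := Subtype.finite

instance {n : ℕ} (A : Finset (Fin n)) (ρ : ℕ) : Nonempty (LR A ρ) :=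
  ⟨⟨emptyOn (Fin n), by simp, by simp⟩⟩

lemma indep_of_contract {α : Type*} {M : Matroid α} {e : α} (he : M.IsNonloop e) {I : Set α}
    (heI : e ∈ I) : M.Indep I ↔ (M ／ {e}).Indep (I \ {e}) := by
  rw [he.indep.contract_indep_iff, Set.sdiff_union_self,
    Set.union_eq_self_of_subset_right (Set.singleton_subset_iff.2 heI)]
  exact ⟨fun h => ⟨Set.disjoint_sdiff_left, h⟩, fun h => h.2⟩

lemma card_LR_insert {n : ℕ} (A : Finset (Fin n)) (e : Fin n) (he : e ∉ A) (ρ : ℕ) :
    Nat.card (LR (insert e A) (ρ + 1)) ≤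
      4 * (Nat.card (LR A (ρ + 1)) * Nat.card (LR A ρ)) := by
  classical
  have hdel : ∀ M : LR (insert e A) (ρ + 1), ∃ N : LR A (ρ + 1), N.1 = M.1 ＼ {e} := by
    intro M
    refine ⟨⟨M.1 ＼ {e}, ?_, ?_⟩, rfl⟩
    · rw [delete_ground]
      rintro x ⟨hx1, hx2⟩
      have := M.2.1 hx1
      rw [Finset.coe_insert] at this
      exact this.resolve_left hx2
    · rw [delete_eq_restrict, eRank_restrict]
      exact (M.1.eRk_le_eRank _).trans M.2.2
  have hcon : ∀ M : LR (insert e A) (ρ + 1), ∃ N : LR A ρ, M.1.IsNonloop e → N.1 = M.1 ／ {e} := by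
    intro M
    by_cases hM : M.1.IsNonloop e
    · refine ⟨⟨M.1 ／ {e}, ?_, eRank_contract_le hM M.2.2⟩, fun _ => rfl⟩
      rw [contract_ground]
      rintro x ⟨hx1, hx2⟩
      have := M.2.1 hx1
      rw [Finset.coe_insert] at this
      exact this.resolve_left hx2
    · exact ⟨Classical.arbitrary _, fun h => absurd h hM⟩
  choose D hD using hdel
  choose C hC using hcon
  have hinj : Function.Injective (fun M : LR (insert e A) (ρ + 1) =>
      ((((decide (e ∈ M.1.E), decide (M.1.IsNonloop e)), (D M, C M))) :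
        (Bool × Bool) × (LR A (ρ + 1) × LR A ρ))) := by
    intro M M' h
    simp only [Prod.mk.injEq, decide_eq_decide] at h
    obtain ⟨⟨h1, h2⟩, h3, h4⟩ := h
    have hdel' : M.1 ＼ {e} = M'.1 ＼ {e} := by rw [← hD M, ← hD M', h3]
    have hE : M.1.E = M'.1.E := by
      have h5 : (M.1 ＼ {e}).E = (M'.1 ＼ {e}).E := by rw [hdel']
      rw [delete_ground, delete_ground] at h5
      ext x
      by_cases hx : x = e
      · subst hx; exact h1
      · constructor
        · intro h
          have : x ∈ M.1.E \ {e} := ⟨h, hx⟩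
          rw [h5] at this; exact this.1
        · intro h
          have : x ∈ M'.1.E \ {e} := ⟨h, hx⟩
          rw [← h5] at this; exact this.1
    apply Subtype.ext
    refine Matroid.ext_indep hE ?_
    intro I _
    by_cases heI : e ∈ I
    · by_cases hle : M.1.IsNonloop e
      · have hle' := h2.1 hle
        rw [indep_of_contract hle heI, indep_of_contract hle' heI, ← hC M hle, ← hC M' hle', h4]
      · have hle' : ¬ M'.1.IsNonloop e := fun h => hle (h2.2 h)
        constructor
        · intro h; exact absurd (h.isNonloop_of_mem heI) hle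
        · intro h; exact absurd (h.isNonloop_of_mem heI) hle'
    · have key : ∀ N : Matroid (Fin n), N.Indep I ↔ (N ＼ {e}).Indep I := by
        intro N
        rw [delete_indep_iff]
        simp [heI]
      rw [key M.1, key M'.1, hdel']
  have h := Nat.card_le_card_of_injective _ hinj
  rw [Nat.card_prod, Nat.card_prod, Nat.card_prod] at h
  simpa using h

lemma card_set_coe {n : ℕ} (A : Finset (Fin n)) : Nat.card (Set A) = 2 ^ A.card := by
  rw [Nat.card_eq_fintype_card, Fintype.card_set, Fintype.card_coe]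

lemma card_LR_two {n : ℕ} (hn : 1 ≤ n) (A : Finset (Fin n)) :
    Nat.card (LR A 2) ≤ (4 * n) ^ A.card := by
  classical
  have : Nonempty (Fin n) := ⟨⟨0, hn⟩⟩
  have hpick : ∀ S : Set (Fin n), ∃ x : Fin n, S.Nonempty → x ∈ S := by
    intro S
    by_cases hS : S.Nonempty
    · obtain ⟨x, hx⟩ := hS; exact ⟨x, fun _ => hx⟩
    · exact ⟨⟨0, hn⟩, fun h => absurd h hS⟩
  choose pick hpick using hpick
  set c : LR A 2 → Fin n → Fin n := fun M e =>
    pick {f | M.1.IsNonloop f ∧ M.1.closure {f} = M.1.closure {e}} with hc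
  have hcmem : ∀ (M : LR A 2) (e : Fin n), M.1.IsNonloop e →
      M.1.closure {c M e} = M.1.closure {e} := by
    intro M e he
    have := hpick {f | M.1.IsNonloop f ∧ M.1.closure {f} = M.1.closure {e}} ⟨e, he, rfl⟩
    exact this.2
  have hinj : Function.Injective (fun M : LR A 2 =>
      ((({x | (x : Fin n) ∈ M.1.E}, ({e | M.1.IsNonloop (e : Fin n)}, fun e => c M e))) :
        Set A × (Set A × (A → Fin n)))) := by
    intro M M' h
    simp only [Prod.mk.injEq] at h
    obtain ⟨h1, h2, h3⟩ := h
    have hE : M.1.E = M'.1.E := by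
      ext x
      constructor
      · intro hx
        have hxA : x ∈ A := M.2.1 hx
        have : (⟨x, hxA⟩ : A) ∈ {x : A | (x : Fin n) ∈ M.1.E} := hx
        rw [h1] at this; exact this
      · intro hx
        have hxA : x ∈ A := M'.2.1 hx
        have : (⟨x, hxA⟩ : A) ∈ {x : A | (x : Fin n) ∈ M'.1.E} := hx
        rw [← h1] at this; exact this
    have key : ∀ (N N' : LR A 2),
        {e : A | N.1.IsNonloop (e : Fin n)} = {e : A | N'.1.IsNonloop (e : Fin n)} →
        (fun e : A => c N e) = (fun e : A => c N' e) → ∀ I, N.1.Indep I → N'.1.Indep I := by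
      intro N N' hnl hc' I hI
      have hcard : I.ncard ≤ 2 := by
        have h4 := hI.encard_le_eRank.trans N.2.2
        rw [← (Set.toFinite I).cast_ncard_eq] at h4
        exact_mod_cast h4
      have hA : ∀ e, N.1.IsNonloop e → e ∈ A := fun e he => N.2.1 he.mem_ground
      have hnl' : ∀ e, N.1.IsNonloop e → N'.1.IsNonloop e := by
        intro e he
        have : (⟨e, hA e he⟩ : A) ∈ {e : A | N.1.IsNonloop (e : Fin n)} := he
        rw [hnl] at this; exact this
      interval_cases hI2 : I.ncard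
      · rw [Set.ncard_eq_zero] at hI2
        rw [hI2]; exact N'.1.empty_indep
      · rw [Set.ncard_eq_one] at hI2
        obtain ⟨e, rfl⟩ := hI2
        rw [indep_singleton] at hI ⊢
        exact hnl' e hI
      · rw [Set.ncard_eq_two] at hI2
        obtain ⟨e, f, hef, rfl⟩ := hI2
        have he := hI.isNonloop_of_mem (Set.mem_insert e {f})
        have hf := hI.isNonloop_of_mem (Set.mem_insert_of_mem e (Set.mem_singleton f))
        by_contra hcon
        have h5 := (hnl' e he).closure_eq_closure_iff_eq_or_dep (hnl' f hf)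
        have h6 := h5.2 (Or.inr hcon)
        have h7 : c N' e = c N' f := by
          simp only [hc, h6]
        have h8 : c N e = c N f := by
          have e1 := congrFun hc' ⟨e, hA e he⟩
          have e2 := congrFun hc' ⟨f, hA f hf⟩
          dsimp only at e1 e2
          rw [e1, e2, h7]
        have h9 : N.1.closure {e} = N.1.closure {f} := by
          rw [← hcmem N e he, ← hcmem N f hf, h8]
        rcases (he.closure_eq_closure_iff_eq_or_dep hf).1 h9 with h10 | h10
        · exact hef h10
        · exact h10 hI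
    apply Subtype.ext
    refine Matroid.ext_indep hE ?_
    intro I _
    exact ⟨key M M' h2 h3 I, key M' M h2.symm h3.symm I⟩
  have h := Nat.card_le_card_of_injective _ hinj
  rw [Nat.card_prod, Nat.card_prod, Nat.card_fun, card_set_coe, Nat.card_fin] at h
  have hA : Nat.card A = A.card := by rw [Nat.card_eq_fintype_card, Fintype.card_coe]
  rw [hA, ← mul_assoc, ← mul_pow, ← mul_pow] at h
  exact h

lemma card_LR_empty {n : ℕ} (ρ : ℕ) : Nat.card (LR (∅ : Finset (Fin n)) ρ) ≤ 1 := by
  refine Finite.card_le_one_iff_subsingleton.2 ⟨?_⟩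
  rintro ⟨M, hM, hM'⟩ ⟨N, hN, hN'⟩
  apply Subtype.ext
  rw [Finset.coe_empty, Set.subset_empty_iff] at hM hN
  refine Matroid.ext_indep (by rw [hM, hN]) ?_
  intro I hI
  rw [hM, Set.subset_empty_iff] at hI
  subst hI
  simp

/-- The count of low rank matroids, with a Pascal recursion. -/
lemma card_LR_le {n : ℕ} (hn : 1 ≤ n) (A : Finset (Fin n)) :
    ∀ ρ : ℕ, 4 * Nat.card (LR A (ρ + 2)) ≤ (4 * n) ^ ((A.card + ρ + 2).choose (ρ + 1)) := by
  classical
  induction A using Finset.induction_on with
  | empty =>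
    intro ρ
    have h1 := card_LR_empty (n := n) (ρ + 2)
    have h2 : 1 ≤ ((∅ : Finset (Fin n)).card + ρ + 2).choose (ρ + 1) :=
      Nat.choose_pos (by omega)
    calc 4 * Nat.card (LR (∅ : Finset (Fin n)) (ρ + 2)) ≤ 4 * n := by omega
      _ = (4 * n) ^ 1 := (pow_one _).symm
      _ ≤ _ := Nat.pow_le_pow_right (by omega) h2
  | insert e A he ih =>
    intro ρ
    rw [Finset.card_insert_of_notMem he]
    cases ρ with
    | zero =>
      have h1 := card_LR_two hn (insert e A)
      rw [Finset.card_insert_of_notMem he] at h1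
      have h2 : (A.card + 1 + 0 + 2).choose (0 + 1) = A.card + 3 := by simp
      rw [h2]
      calc 4 * Nat.card (LR (insert e A) (0 + 2)) ≤ (4 * n) ^ 2 * (4 * n) ^ (A.card + 1) := by
            refine Nat.mul_le_mul ?_ h1
            nlinarith
        _ = (4 * n) ^ (A.card + 3) := by rw [← pow_add]; congr 1; omega
    | succ ρ =>
      have h1 := card_LR_insert A e he (ρ + 2)
      have h2 := ih (ρ + 1)
      have h3 := ih ρ
      have h4 : (A.card + (ρ + 1) + 2).choose (ρ + 1 + 1) + (A.card + ρ + 2).choose (ρ + 1) ≤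
          (A.card + 1 + (ρ + 1) + 2).choose (ρ + 1 + 1) := by
        have h5 : A.card + 1 + (ρ + 1) + 2 = (A.card + (ρ + 1) + 2) + 1 := by omega
        have h7 := Nat.choose_succ_succ' (A.card + (ρ + 1) + 2) (ρ + 1)
        rw [h5, h7]
        have h6 : (A.card + ρ + 2).choose (ρ + 1) ≤ (A.card + (ρ + 1) + 2).choose (ρ + 1) :=
          Nat.choose_le_choose _ (by omega)
        omega
      calc 4 * Nat.card (LR (insert e A) (ρ + 1 + 2))
          ≤ 4 * (4 * (Nat.card (LR A (ρ + 2 + 1)) * Nat.card (LR A (ρ + 2)))) :=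
            Nat.mul_le_mul_left _ h1
        _ = (4 * Nat.card (LR A (ρ + 1 + 2))) * (4 * Nat.card (LR A (ρ + 2))) := by ring
        _ ≤ (4 * n) ^ ((A.card + (ρ + 1) + 2).choose (ρ + 1 + 1)) *
            (4 * n) ^ ((A.card + ρ + 2).choose (ρ + 1)) := Nat.mul_le_mul h2 h3
        _ = (4 * n) ^ ((A.card + (ρ + 1) + 2).choose (ρ + 1 + 1) +
            (A.card + ρ + 2).choose (ρ + 1)) := by rw [pow_add]
        _ ≤ _ := Nat.pow_le_pow_right (by omega) h4

/-- The number of matroids of rank at most `ρ + 2`. -/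
theorem card_lowRank_choose {n : ℕ} (hn : 1 ≤ n) (ρ : ℕ) :
    Nat.card (LowRank n (ρ + 2)) ≤ (4 * n) ^ ((n + ρ + 2).choose (ρ + 1)) := by
  classical
  have h := card_LR_le hn (Finset.univ : Finset (Fin n)) ρ
  rw [Finset.card_univ, Fintype.card_fin] at h
  have h2 : Nat.card (LowRank n (ρ + 2)) ≤ Nat.card (LR (Finset.univ : Finset (Fin n)) (ρ + 2)) := by
    refine Nat.card_le_card_of_injective (fun M : LowRank n (ρ + 2) =>
      (⟨M.1, by simp, M.2⟩ : LR (Finset.univ : Finset (Fin n)) (ρ + 2))) ?_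
    intro M M' h
    exact Subtype.ext (congrArg (fun X : LR (Finset.univ : Finset (Fin n)) (ρ + 2) => X.1) h)
  omega

end Pool.Agent.Work.MP_f3d170_co_helper60b
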