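import Mathlib
import Pool.Agent.Work.MP_f3d170_co_helper60b.Encode

set_option autoImplicit false

open Set Matroid
open Pool.Agent.Work.MP_f3d170_co_h45 (RankMatroid)
open Pool.Agent.Work.MP_f3d170_co_helper60

namespace Pool.Agent.Work.MP_f3d170_co_helper60b

variable {n s : ℕ}

/-- The atypical matroids: there is a lot of room. -/
def Atyp (n s D : ℕ) : Type :=
  {M : RankMatroid n (s + 1) // ∃ H, (H = ∅ ∨ IsHyp M.1 s H) ∧
    D ≤ (Room (trunc M.1 s) s H).ncard}

instance (n s D : ℕ) : Finite (Atyp n s D) := by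
  refine Finite.of_injective (β := Matroid (Fin n)) (fun M => M.1.1) ?_
  intro M M' h
  exact Subtype.ext (Subtype.ext h)

theorem card_atyp_le {D g : ℕ} (hn : s + 1 ≤ n) (hg : n * g ≤ D)
    [Finite (RankMatroid n (s + 1))] :
    Nat.card (Atyp n s D) * 2 ^ g ≤
      2 ^ n * (Nat.card (LowRank n s) * (Nat.card (RankMatroid n (s + 1)) + 1)) := by
  classical
  -- the chosen stable families
  have hex : ∀ (T : Matroid (Fin n)) (H : Set (Fin n)), ∃ ι : Fin g → Set (Fin n),
      D ≤ (Room T s H).ncard → Function.Injective ι ∧ (∀ k, ι k ∈ Room T s H) ∧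
        ∀ k l, s ≤ (ι k ∩ ι l).ncard → ι k = ι l := by
    intro T H
    by_cases hD : D ≤ (Room T s H).ncard
    · obtain ⟨ι, hι⟩ := exists_stable (s := s) (g := g) (by omega : 0 < n)
        (𝒳 := Room T s H) (fun X hX => hX.1) (hg.trans hD)
      exact ⟨ι, fun _ => hι⟩
    · exact ⟨fun _ => ∅, fun h => absurd h hD⟩
  choose ι hι using hex
  have hH : ∀ M : Atyp n s D, ∃ H, (H = ∅ ∨ IsHyp M.1.1 s H) ∧
    D ≤ (Room (trunc M.1.1 s) s H).ncard := fun M => M.2
  choose H hH1 hH2 using hH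
  have hpart : ∀ (M : Atyp n s D) (A : Set (Fin g)),
      IsPart s (Blocks M.1.1 s (H M) ∪ ι (trunc M.1.1 s) (H M) '' A) := by
    intro M A
    obtain ⟨h1, h2, h3⟩ := hι _ _ (hH2 M)
    refine isPart_union M.1.2.1 (hH1 M) ?_ ?_
    · rintro _ ⟨k, -, rfl⟩
      exact h2 k
    · rintro _ ⟨k, -, rfl⟩ _ ⟨l, -, rfl⟩ hc
      exact h3 k l hc
  set Φ : Atyp n s D × Set (Fin g) →
      Set (Fin n) × (LowRank n s × {𝒲 : Set (Set (Fin n)) // IsPart s 𝒲}) := fun p =>
    (H p.1, (⟨trunc p.1.1.1 s, trunc_eRank _⟩, ⟨_, hpart p.1 p.2⟩)) with hΦ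
  have hinj : Function.Injective Φ := by
    rintro ⟨M, A⟩ ⟨M', A'⟩ h
    simp only [hΦ, Prod.mk.injEq] at h
    obtain ⟨e1, e2, e3⟩ := h
    replace e2 : trunc M.1.1 s = trunc M'.1.1 s := congrArg (fun X : LowRank n s => X.1) e2
    replace e3 : Blocks M.1.1 s (H M) ∪ ι (trunc M.1.1 s) (H M) '' A =
        Blocks M'.1.1 s (H M') ∪ ι (trunc M'.1.1 s) (H M') '' A' :=
      congrArg (fun X : {𝒲 : Set (Set (Fin n)) // IsPart s 𝒲} => X.1) e3
    obtain ⟨h1, h2, h3⟩ := hι _ _ (hH2 M)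
    have hdisj : ∀ (N : Atyp n s D), ∀ B ∈ Blocks N.1.1 s (H N),
        B ∉ Room (trunc N.1.1 s) s (H N) := by
      intro N B hB hB'
      have h4 := blocks_disjoint_room N.1.2.1 (hH1 N) hB hB'
      rw [Set.inter_self, hB'.1] at h4
      omega
    rw [← e1, ← e2] at e3
    have hdisj' := hdisj M'
    rw [← e1, ← e2] at hdisj'
    have hA : ι (trunc M.1.1 s) (H M) '' A = ι (trunc M.1.1 s) (H M) '' A' := by
      ext B
      constructor
      · rintro ⟨k, hk, rfl⟩
        have h5 : ι (trunc M.1.1 s) (H M) k ∈ Blocks M'.1.1 s (H M) ∪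
            ι (trunc M.1.1 s) (H M) '' A' := by
          rw [← e3]; exact Or.inr ⟨k, hk, rfl⟩
        rcases h5 with h5 | h5
        · exact absurd (h2 k) (hdisj' _ h5)
        · exact h5
      · rintro ⟨k, hk, rfl⟩
        have h5 : ι (trunc M.1.1 s) (H M) k ∈ Blocks M.1.1 s (H M) ∪
            ι (trunc M.1.1 s) (H M) '' A := by
          rw [e3]; exact Or.inr ⟨k, hk, rfl⟩
        rcases h5 with h5 | h5
        · exact absurd (h2 k) (hdisj M _ h5)
        · exact h5
    have hAA : A = A' := (Set.image_injective.2 h1) hA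
    have hBB : Blocks M.1.1 s (H M) = Blocks M'.1.1 s (H M) := by
      ext B
      constructor
      · intro hB
        have h5 : B ∈ Blocks M'.1.1 s (H M) ∪ ι (trunc M.1.1 s) (H M) '' A' := by
          rw [← e3]; exact Or.inl hB
        rcases h5 with h5 | ⟨k, -, rfl⟩
        · exact h5
        · exact absurd (h2 k) (hdisj M _ hB)
      · intro hB
        have h5 : B ∈ Blocks M.1.1 s (H M) ∪ ι (trunc M.1.1 s) (H M) '' A := by
          rw [e3]; exact Or.inl hB
        rcases h5 with h5 | ⟨k, -, rfl⟩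
        · exact h5
        · exact absurd (h2 k) (hdisj' _ hB)
    have hMM : M = M' := by
      apply Subtype.ext
      apply Subtype.ext
      exact eq_of_blocks M.1.2.1 M'.1.2.1 M.1.2.2 M'.1.2.2 (hH1 M) (e1 ▸ hH1 M') e2 hBB
    rw [hMM, hAA]
  have h := Nat.card_le_card_of_injective _ hinj
  rw [Nat.card_prod, Nat.card_prod, Nat.card_prod, card_set_fin, card_set_fin] at h
  refine h.trans ?_
  exact Nat.mul_le_mul_left _ (Nat.mul_le_mul_left _ (card_part_le hn))

end Pool.Agent.Work.MP_f3d170_co_helper60b
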