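import Mathlib

set_option autoImplicit false

open Nat

namespace Pool.Agent.Work.MP_f3d170_co_helper60b

lemma log_bound (q : ℕ) : (q + 3) ^ 12 ≤ 2 ^ (q + 48) := by
  induction q with
  | zero => norm_num
  | succ q ih =>
    by_cases hq : q ≤ 14
    · interval_cases q <;> norm_num
    · push Not at hq
      -- ((q+4)/(q+3))^12 ≤ 2
      have h1 : (q + 4) ^ 12 ≤ 2 * (q + 3) ^ 12 := by
        have h2 : 17 * (q + 4) ≤ 18 * (q + 3) := by omega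
        have h3 : 17 ^ 12 * (q + 4) ^ 12 ≤ 18 ^ 12 * (q + 3) ^ 12 := by
          rw [← mul_pow, ← mul_pow]
          exact Nat.pow_le_pow_left h2 12
        have h4 : (18 : ℕ) ^ 12 ≤ 2 * 17 ^ 12 := by norm_num
        have h5 : 17 ^ 12 * (q + 4) ^ 12 ≤ 17 ^ 12 * (2 * (q + 3) ^ 12) := by
          calc 17 ^ 12 * (q + 4) ^ 12 ≤ 18 ^ 12 * (q + 3) ^ 12 := h3
            _ ≤ (2 * 17 ^ 12) * (q + 3) ^ 12 := Nat.mul_le_mul_right _ h4
            _ = _ := by ring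
        exact Nat.le_of_mul_le_mul_left h5 (by norm_num)
      calc (q + 1 + 3) ^ 12 = (q + 4) ^ 12 := by ring
        _ ≤ 2 * (q + 3) ^ 12 := h1
        _ ≤ 2 * 2 ^ (q + 48) := Nat.mul_le_mul_left _ ih
        _ = 2 ^ (q + 1 + 48) := by ring

/-- `X ^ 24 ≤ n` beats `X ^ 22` times a logarithm. -/
lemma pow_log {X n : ℕ} (hn0 : 1 ≤ n) (hn : X ^ 24 ≤ n) : X ^ 22 * (Nat.log 2 n + 3) ≤ 16 * n := by
  set q := Nat.log 2 n with hq
  have h2q : 2 ^ q ≤ n := Nat.pow_log_le_self 2 (by omega)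
  by_cases h : q + 3 ≤ 16 * X ^ 2
  · calc X ^ 22 * (q + 3) ≤ X ^ 22 * (16 * X ^ 2) := Nat.mul_le_mul_left _ h
      _ = 16 * X ^ 24 := by ring
      _ ≤ 16 * n := Nat.mul_le_mul_left _ hn
  · push Not at h
    have h1 : 16 ^ 11 * (X ^ 22 * (q + 3)) ≤ 16 ^ 11 * (16 * n) := by
      calc 16 ^ 11 * (X ^ 22 * (q + 3)) = (16 * X ^ 2) ^ 11 * (q + 3) := by ring
        _ ≤ (q + 3) ^ 11 * (q + 3) := Nat.mul_le_mul_right _ (Nat.pow_le_pow_left h.le 11)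
        _ = (q + 3) ^ 12 := by ring
        _ ≤ 2 ^ (q + 48) := log_bound q
        _ = 2 ^ 48 * 2 ^ q := by rw [pow_add]; ring
        _ ≤ 2 ^ 48 * n := Nat.mul_le_mul_left _ h2q
        _ = 16 ^ 11 * (16 * n) := by ring
    exact Nat.le_of_mul_le_mul_left h1 (by norm_num)

/-- Binomial coefficients close to the diagonal. -/
lemma pow_shift {n s : ℕ} (hn : 2 * s ^ 2 ≤ n) : ∀ j ≤ s, s * (n + s) ^ j ≤ (s + j) * n ^ j := by
  intro j
  induction j with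
  | zero => intro _; simp
  | succ j ih =>
    intro hj
    have h1 := ih (by omega)
    have h2 : (s + j) * (n + s) ≤ (s + (j + 1)) * n := by nlinarith
    calc s * (n + s) ^ (j + 1) = (s * (n + s) ^ j) * (n + s) := by ring
      _ ≤ ((s + j) * n ^ j) * (n + s) := Nat.mul_le_mul_right _ h1
      _ = n ^ j * ((s + j) * (n + s)) := by ring
      _ ≤ n ^ j * ((s + (j + 1)) * n) := Nat.mul_le_mul_left _ h2
      _ = (s + (j + 1)) * n ^ (j + 1) := by ring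

lemma fact_succ_le (ρ : ℕ) : (ρ + 1)! ≤ (ρ + 1) ^ ρ := by
  induction ρ with
  | zero => simp
  | succ ρ ih =>
    calc (ρ + 1 + 1)! = (ρ + 2) * (ρ + 1)! := rfl
      _ ≤ (ρ + 2) * (ρ + 1) ^ ρ := Nat.mul_le_mul_left _ ih
      _ ≤ (ρ + 2) * (ρ + 2) ^ ρ := by gcongr; omega
      _ = (ρ + 1 + 1) ^ (ρ + 1) := by ring

lemma fact_le {n s : ℕ} (hs : 2 ≤ s) (hn : s ≤ n) : (s - 1)! * n ≤ n ^ (s - 1) := by
  obtain ⟨ρ, rfl⟩ : ∃ ρ, s = ρ + 2 := ⟨s - 2, by omega⟩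
  have h1 : ρ + 2 - 1 = ρ + 1 := by omega
  rw [h1]
  have h2 : (ρ + 1)! ≤ n ^ ρ := by
    calc (ρ + 1)! ≤ (ρ + 1) ^ ρ := fact_succ_le ρ
      _ ≤ n ^ ρ := Nat.pow_le_pow_left (by omega) ρ
  calc (ρ + 1)! * n ≤ n ^ ρ * n := Nat.mul_le_mul_right _ h2
    _ = n ^ (ρ + 1) := (pow_succ _ _).symm

/-- The number of bits. -/
lemma bits {n s : ℕ} (hs : 2 ≤ s) (hn : 2 * s ^ 2 ≤ n) :
    (s - 1)! * (1 + 2 * n + (n + s).choose (s - 1)) ≤ 5 * n ^ (s - 1) := by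
  have hsn : s ≤ n := by nlinarith
  have h1 := fact_le hs hsn
  have h2 : (s - 1)! * (n + s).choose (s - 1) ≤ 2 * n ^ (s - 1) := by
    have h3 : (s - 1)! * (n + s).choose (s - 1) ≤ (n + s) ^ (s - 1) := by
      rw [← Nat.descFactorial_eq_factorial_mul_choose]
      exact Nat.descFactorial_le_pow _ _
    have h4 := pow_shift hn (s - 1) (by omega)
    have h5 : (s + (s - 1)) * n ^ (s - 1) ≤ s * (2 * n ^ (s - 1)) := by
      calc (s + (s - 1)) * n ^ (s - 1) ≤ (2 * s) * n ^ (s - 1) :=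
            Nat.mul_le_mul_right _ (by omega)
        _ = _ := by ring
    exact h3.trans (Nat.le_of_mul_le_mul_left (h4.trans h5) (by omega))
  have h3 : (s - 1)! * (1 + 2 * n) ≤ 3 * n ^ (s - 1) := by
    calc (s - 1)! * (1 + 2 * n) ≤ (s - 1)! * (3 * n) := by gcongr; omega
      _ = 3 * ((s - 1)! * n) := by ring
      _ ≤ _ := Nat.mul_le_mul_left _ h1
  calc (s - 1)! * (1 + 2 * n + (n + s).choose (s - 1)) =
        (s - 1)! * (1 + 2 * n) + (s - 1)! * (n + s).choose (s - 1) := by ring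
    _ ≤ _ := by omega

/-- The comparison of the counts. -/
theorem compare {n s k a K L g : ℕ} (hs : 2 ≤ s) (hn : 2 * s ^ 2 ≤ n) (hkn : k ≤ n)
    (hL : 4 * n ≤ 2 ^ L) (hK : 1 ≤ K)
    (hA : 10 * s * (s + 1) * K ^ 10 * L ≤ n)
    (ha : a ≤ (4 * n) ^ ((n + s).choose (s - 1)))
    (hg : g = n ^ s / (2 * K ^ 10 * (s + 1)!)) :
    2 * (k * n !) * (2 ^ n * a) ≤ 2 ^ g := by
  have hn1 : 1 ≤ n := by nlinarith
  have h1 : 2 * (k * n !) * (2 ^ n * a) ≤ (2 ^ L) ^ (1 + 2 * n + (n + s).choose (s - 1)) := by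
    have e1 : 2 * k ≤ (2 ^ L) ^ 1 := by rw [pow_one]; omega
    have e2 : n ! ≤ (2 ^ L) ^ n :=
      (Nat.factorial_le_pow n).trans (Nat.pow_le_pow_left (by omega) n)
    have e3 : 2 ^ n ≤ (2 ^ L) ^ n := Nat.pow_le_pow_left (by omega) n
    have e4 : a ≤ (2 ^ L) ^ ((n + s).choose (s - 1)) :=
      ha.trans (Nat.pow_le_pow_left hL _)
    calc 2 * (k * n !) * (2 ^ n * a) = ((2 * k) * n !) * (2 ^ n * a) := by ring
      _ ≤ ((2 ^ L) ^ 1 * (2 ^ L) ^ n) * ((2 ^ L) ^ n * (2 ^ L) ^ ((n + s).choose (s - 1))) :=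
          Nat.mul_le_mul (Nat.mul_le_mul e1 e2) (Nat.mul_le_mul e3 e4)
      _ = _ := by rw [← pow_add, ← pow_add, ← pow_add]; congr 1; ring
  refine h1.trans ?_
  rw [← pow_mul]
  refine Nat.pow_le_pow_right (by norm_num) ?_
  rw [hg, Nat.le_div_iff_mul_le (by positivity)]
  have h2 := bits hs hn
  have h3 : (s + 1)! = (s + 1) * s * (s - 1)! := by
    obtain ⟨ρ, rfl⟩ : ∃ ρ, s = ρ + 2 := ⟨s - 2, by omega⟩
    have h4 : ρ + 2 - 1 = ρ + 1 := by omega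
    rw [h4, Nat.factorial_succ, Nat.factorial_succ]
    ring
  calc L * (1 + 2 * n + (n + s).choose (s - 1)) * (2 * K ^ 10 * (s + 1)!)
      = (2 * K ^ 10 * (s + 1) * s * L) * ((s - 1)! * (1 + 2 * n + (n + s).choose (s - 1))) := by
        rw [h3]; ring
    _ ≤ (2 * K ^ 10 * (s + 1) * s * L) * (5 * n ^ (s - 1)) := Nat.mul_le_mul_left _ h2
    _ = (10 * s * (s + 1) * K ^ 10 * L) * n ^ (s - 1) := by ring
    _ ≤ n * n ^ (s - 1) := Nat.mul_le_mul_right _ hA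
    _ = n ^ s := by
        rw [← pow_succ']; congr 1; omega

/-- The explicit threshold. -/
theorem threshold {n s k : ℕ} (hs : 2 ≤ s) (hk : 1 ≤ k) (hn : (2 * (s + 1) * k) ^ 24 ≤ n) :
    10 * s * (s + 1) * ((s + 2) * (2 * s + 2) * k) ^ 10 * (Nat.log 2 n + 3) ≤ n := by
  set X := 2 * (s + 1) * k with hX
  have hX6 : 6 ≤ X := by rw [hX]; nlinarith
  have hn1 : 1 ≤ n := le_trans (Nat.one_le_pow _ _ (by omega)) hn
  have h1 := pow_log hn1 hn
  have h2 : 16 * (10 * s * (s + 1) * ((s + 2) * (2 * s + 2) * k) ^ 10) ≤ X ^ 22 := by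
    -- `3 (s + 2) ≤ 4 (s + 1)`
    have e1 : 3 * (s + 2) ≤ 4 * (s + 1) := by omega
    have e2 : 3 ^ 10 * (16 * (10 * s * (s + 1) * ((s + 2) * (2 * s + 2) * k) ^ 10)) ≤
        3 ^ 10 * X ^ 22 := by
      calc 3 ^ 10 * (16 * (10 * s * (s + 1) * ((s + 2) * (2 * s + 2) * k) ^ 10))
          = 160 * s * (s + 1) * (3 * (s + 2)) ^ 10 * ((2 * s + 2) * k) ^ 10 := by ring
        _ ≤ 160 * (s + 1) * (s + 1) * (4 * (s + 1)) ^ 10 * ((2 * s + 2) * k) ^ 10 := by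
            gcongr; omega
        _ = (160 * 4 ^ 10 * 2 ^ 10) * ((s + 1) ^ 22 * k ^ 10) := by ring
        _ ≤ (3 ^ 10 * 2 ^ 22) * ((s + 1) ^ 22 * k ^ 22) := by
            refine Nat.mul_le_mul (by norm_num) (Nat.mul_le_mul_left _ ?_)
            exact Nat.pow_le_pow_right hk (by norm_num)
        _ = 3 ^ 10 * X ^ 22 := by rw [hX]; ring
    exact Nat.le_of_mul_le_mul_left e2 (by norm_num)
  have h3 : 16 * (10 * s * (s + 1) * ((s + 2) * (2 * s + 2) * k) ^ 10 * (Nat.log 2 n + 3)) ≤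
      16 * n := by
    calc 16 * (10 * s * (s + 1) * ((s + 2) * (2 * s + 2) * k) ^ 10 * (Nat.log 2 n + 3))
        = (16 * (10 * s * (s + 1) * ((s + 2) * (2 * s + 2) * k) ^ 10)) * (Nat.log 2 n + 3) := by
          ring
      _ ≤ X ^ 22 * (Nat.log 2 n + 3) := Nat.mul_le_mul_right _ h2
      _ ≤ _ := h1
  exact Nat.le_of_mul_le_mul_left h3 (by norm_num)

end Pool.Agent.Work.MP_f3d170_co_helper60b
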