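import Mathlib

set_option autoImplicit false

open Set

namespace Pool.Agent.Work.MP_f3d170_co_helper60b

open Classical in
lemma ncard_eq_sum {α : Type*} [Fintype α] (P : Set α) :
    (P.ncard : ℤ) = ∑ x : α, if x ∈ P then (1 : ℤ) else 0 := by
  rw [Finset.sum_boole, Set.ncard_eq_toFinset_card']
  congr 2
  ext x; simp

open Classical in
/-- Many large sets: two of them have a large intersection. -/
theorem exists_pair {α : Type*} [Fintype α] {𝒬 : Finset (Set α)} {K t n : ℕ}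
    (hα : Fintype.card α = n) (hn : 0 < n)
    (hcard : K + 1 ≤ 𝒬.card) (ht : ∀ P ∈ 𝒬, t ≤ P.ncard) (hKt : n ≤ K * t) :
    ∃ P ∈ 𝒬, ∃ Q ∈ 𝒬, P ≠ Q ∧ t ^ 3 ≤ (P ∩ Q).ncard * n ^ 2 := by
  obtain ⟨𝒬', hsub, hc⟩ := Finset.exists_subset_card_eq hcard
  by_contra hcon
  push Not at hcon
  have hcon' : ∀ P ∈ 𝒬', ∀ Q ∈ 𝒬', P ≠ Q → (P ∩ Q).ncard * n ^ 2 < t ^ 3 :=
    fun P hP Q hQ => hcon P (hsub hP) Q (hsub hQ)
  have hKpos : 0 < K := by
    rcases Nat.eq_zero_or_pos K with h | h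
    · subst h; omega
    · exact h
  have htn : t ≤ n := by
    obtain ⟨P, hP⟩ : 𝒬'.Nonempty := Finset.card_pos.1 (by omega)
    refine (ht P (hsub hP)).trans ?_
    rw [← hα, ← Nat.card_eq_fintype_card, ← Set.ncard_univ]
    exact Set.ncard_le_ncard (Set.subset_univ _) (Set.toFinite _)
  -- the sums
  set N : α → ℤ := fun x => ∑ P ∈ 𝒬', if x ∈ P then (1 : ℤ) else 0 with hN
  set S : ℤ := ∑ P ∈ 𝒬', (P.ncard : ℤ) with hS
  have h1 : ∑ x : α, N x = S := by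
    rw [hN, Finset.sum_comm, hS]
    exact Finset.sum_congr rfl fun P _ => (ncard_eq_sum P).symm
  have h2 : ∑ x : α, N x ^ 2 = ∑ P ∈ 𝒬', ∑ Q ∈ 𝒬', ((P ∩ Q).ncard : ℤ) := by
    have e1 : ∀ x, N x ^ 2 = ∑ P ∈ 𝒬', ∑ Q ∈ 𝒬', if x ∈ P ∩ Q then (1 : ℤ) else 0 := by
      intro x
      rw [sq, hN]
      simp only
      rw [Finset.sum_mul_sum]
      refine Finset.sum_congr rfl fun P _ => Finset.sum_congr rfl fun Q _ => ?_
      by_cases hP : x ∈ P <;> by_cases hQ : x ∈ Q <;> simp [hP, hQ]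
    rw [Finset.sum_congr rfl fun x _ => e1 x, Finset.sum_comm]
    refine Finset.sum_congr rfl fun P _ => ?_
    rw [Finset.sum_comm]
    refine Finset.sum_congr rfl fun Q _ => ?_
    rw [ncard_eq_sum (P ∩ Q)]
    refine Finset.sum_congr rfl fun x _ => ?_
    congr
  have h3 : S ^ 2 ≤ n * ∑ x : α, N x ^ 2 := by
    rw [← h1]
    have := sq_sum_le_card_mul_sum_sq (s := (Finset.univ : Finset α)) (f := N)
    rwa [Finset.card_univ, hα] at this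
  -- bound the double sum
  have h4 : (n : ℤ) ^ 2 * ∑ P ∈ 𝒬', ∑ Q ∈ 𝒬', ((P ∩ Q).ncard : ℤ) ≤
      (n : ℤ) ^ 2 * S + (K + 1) * K * ((t : ℤ) ^ 3 - 1) := by
    have e2 : ∀ P ∈ 𝒬', (n : ℤ) ^ 2 * ∑ Q ∈ 𝒬', ((P ∩ Q).ncard : ℤ) ≤
        (n : ℤ) ^ 2 * P.ncard + K * ((t : ℤ) ^ 3 - 1) := by
      intro P hP
      rw [← Finset.add_sum_erase 𝒬' _ hP, Set.inter_self, mul_add]
      refine add_le_add_right ?_ _
      have hc' : (𝒬'.erase P).card = K := by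
        rw [Finset.card_erase_of_mem hP, hc]; omega
      calc (n : ℤ) ^ 2 * ∑ Q ∈ 𝒬'.erase P, ((P ∩ Q).ncard : ℤ)
          = ∑ Q ∈ 𝒬'.erase P, (n : ℤ) ^ 2 * ((P ∩ Q).ncard : ℤ) := Finset.mul_sum _ _ _
        _ ≤ ∑ Q ∈ 𝒬'.erase P, ((t : ℤ) ^ 3 - 1) := by
            refine Finset.sum_le_sum fun Q hQ => ?_
            rw [Finset.mem_erase] at hQ
            have := hcon' P hP Q hQ.2 hQ.1.symm
            have h5 : (((P ∩ Q).ncard * n ^ 2 : ℕ) : ℤ) < ((t ^ 3 : ℕ) : ℤ) := by exact_mod_cast this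
            push_cast at h5
            linarith
        _ = K * ((t : ℤ) ^ 3 - 1) := by rw [Finset.sum_const, hc', nsmul_eq_mul]
    rw [Finset.mul_sum]
    refine (Finset.sum_le_sum e2).trans ?_
    rw [Finset.sum_add_distrib, ← Finset.mul_sum, Finset.sum_const, hc, nsmul_eq_mul]
    push_cast
    linarith
  have hSlow : ((K : ℤ) + 1) * t ≤ S := by
    have h5 : ∑ P ∈ 𝒬', (t : ℤ) ≤ S := Finset.sum_le_sum fun P hP => by
      exact_mod_cast ht P (hsub hP)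
    rw [Finset.sum_const, hc, nsmul_eq_mul] at h5
    push_cast at h5
    exact h5
  have hn' : (0 : ℤ) < n := by exact_mod_cast hn
  have hK' : (0 : ℤ) < K := by exact_mod_cast hKpos
  have hKt' : (n : ℤ) ≤ K * t := by exact_mod_cast hKt
  have htn' : (t : ℤ) ≤ n := by exact_mod_cast htn
  have ht0 : (0 : ℤ) ≤ t := by positivity
  rw [h2] at h3
  set DS := ∑ P ∈ 𝒬', ∑ Q ∈ 𝒬', ((P ∩ Q).ncard : ℤ) with hDS
  -- n^2 S^2 ≤ n (n^2 DS) ≤ n (n^2 S + (K+1) K (t^3 - 1))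
  have h6 : (n : ℤ) ^ 2 * S ^ 2 ≤ n * ((n : ℤ) ^ 2 * S + (K + 1) * K * ((t : ℤ) ^ 3 - 1)) := by
    calc (n : ℤ) ^ 2 * S ^ 2 ≤ (n : ℤ) ^ 2 * (n * DS) := by gcongr
      _ = n * ((n : ℤ) ^ 2 * DS) := by ring
      _ ≤ _ := by gcongr
  have h7 : (n : ℤ) * S ^ 2 ≤ (n : ℤ) ^ 2 * S + (K + 1) * K * ((t : ℤ) ^ 3 - 1) := by
    have : (n : ℤ) * ((n : ℤ) * S ^ 2) ≤
        n * ((n : ℤ) ^ 2 * S + (K + 1) * K * ((t : ℤ) ^ 3 - 1)) := by
      calc (n : ℤ) * ((n : ℤ) * S ^ 2) = (n : ℤ) ^ 2 * S ^ 2 := by ring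
        _ ≤ _ := h6
    exact le_of_mul_le_mul_left this hn'
  -- monotone in S
  have h8 : (n : ℤ) * (((K : ℤ) + 1) * t) * (((K : ℤ) + 1) * t - n) ≤ n * S * (S - n) := by
    have h9 : (0 : ℤ) ≤ ((K : ℤ) + 1) * t - n := by nlinarith
    have h10 : ((K : ℤ) + 1) * t - n ≤ S - n := by linarith
    have h11 : (0 : ℤ) ≤ ((K : ℤ) + 1) * t := by positivity
    have h12 : (n : ℤ) * (((K : ℤ) + 1) * t) ≤ n * S := by gcongr
    exact mul_le_mul h12 h10 h9 (by nlinarith)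
  have h13 : (n : ℤ) * (((K : ℤ) + 1) * t) * (((K : ℤ) + 1) * t - n) <
      (K + 1) * K * (t : ℤ) ^ 3 := by
    have h14 : (n : ℤ) * S * (S - n) ≤ (K + 1) * K * ((t : ℤ) ^ 3 - 1) := by nlinarith
    have h15 : (K + 1) * K * ((t : ℤ) ^ 3 - 1) < (K + 1) * K * (t : ℤ) ^ 3 := by
      have : (0 : ℤ) < (K + 1) * K := by positivity
      nlinarith
    linarith
  -- divide by (K+1)
  have h16 : (n : ℤ) * t * (((K : ℤ) + 1) * t - n) < K * (t : ℤ) ^ 3 := by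
    have h17 : ((K : ℤ) + 1) * ((n : ℤ) * t * (((K : ℤ) + 1) * t - n)) <
        ((K : ℤ) + 1) * (K * (t : ℤ) ^ 3) := by
      calc ((K : ℤ) + 1) * ((n : ℤ) * t * (((K : ℤ) + 1) * t - n)) =
            (n : ℤ) * (((K : ℤ) + 1) * t) * (((K : ℤ) + 1) * t - n) := by ring
        _ < (K + 1) * K * (t : ℤ) ^ 3 := h13
        _ = _ := by ring
    exact lt_of_mul_lt_mul_left h17 (by positivity)
  have h18 : (0 : ℤ) ≤ t * ((K * t - n) * (n - t)) :=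
    mul_nonneg ht0 (mul_nonneg (by linarith) (by linarith))
  nlinarith

end Pool.Agent.Work.MP_f3d170_co_helper60b
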