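import Mathlib
import Pool.Agent.Work.MP_f3d170_co_helper60b.Pair
import Pool.Agent.Work.MP_f3d170_co_helper60b.Encode

set_option autoImplicit false

open Set Matroid
open Pool.Agent.Work.MP_f3d170_co_helper60

namespace Pool.Agent.Work.MP_f3d170_co_helper60b

variable {n s : ℕ}

/-! ### Counting tuples -/

/-- The solutions of a property, as a finite set. -/
noncomputable def sol {β : Type*} [Fintype β] (φ : β → Prop) : Finset β :=
  @Finset.filter β φ (Classical.decPred φ) Finset.univ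

lemma mem_sol {β : Type*} [Fintype β] {φ : β → Prop} {x : β} : x ∈ sol φ ↔ φ x := by
  unfold sol
  exact (@Finset.mem_filter β φ (Classical.decPred φ) Finset.univ x).trans
    ⟨fun h => h.2, fun h => ⟨Finset.mem_univ _, h⟩⟩

/-- The number of solutions of a property. -/
noncomputable def cnt {β : Type*} [Fintype β] (φ : β → Prop) : ℕ := (sol φ).card

lemma cnt_mono {β : Type*} [Fintype β] {φ ψ : β → Prop} (h : ∀ x, φ x → ψ x) :
    cnt φ ≤ cnt ψ :=
  Finset.card_le_card fun x hx => mem_sol.2 (h x (mem_sol.1 hx))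

lemma cnt_or {β : Type*} [Fintype β] (φ ψ : β → Prop) :
    cnt (fun x => φ x ∨ ψ x) ≤ cnt φ + cnt ψ := by
  classical
  unfold cnt
  refine le_trans (Finset.card_le_card ?_) (Finset.card_union_le _ _)
  intro x hx
  refine Finset.mem_union.2 ?_
  rcases mem_sol.1 hx with h | h
  · exact Or.inl (mem_sol.2 h)
  · exact Or.inr (mem_sol.2 h)

lemma cnt_equiv {β γ : Type*} [Fintype β] [Fintype γ] (e : β ≃ γ) (φ : γ → Prop) :
    cnt (fun x => φ (e x)) = cnt φ := by
  unfold cnt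
  refine Finset.card_bij (fun x _ => e x) ?_ ?_ ?_
  · intro x hx
    have h := (mem_sol (φ := fun x => φ (e x))).1 hx
    exact mem_sol.2 h
  · intro x _ y _ h; exact e.injective h
  · intro y hy
    exact ⟨e.symm y, mem_sol.2 (by rw [Equiv.apply_symm_apply]; exact mem_sol.1 hy), by simp⟩

lemma cnt_le_card {β : Type*} [Fintype β] (φ : β → Prop) : cnt φ ≤ Fintype.card β :=
  Finset.card_le_univ _

open Classical in
lemma cnt_eq_sum {β : Type*} [Fintype β] (φ : β → Prop) :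
    cnt φ = ∑ x : β, if φ x then 1 else 0 := by
  rw [Finset.sum_boole, Nat.cast_id]
  unfold cnt
  congr 1

lemma cnt_prod {β γ : Type*} [Fintype β] [Fintype γ] (φ : β → γ → Prop) :
    cnt (fun p : β × γ => φ p.1 p.2) = ∑ x : β, cnt (φ x) := by
  rw [cnt_eq_sum, Fintype.sum_prod_type]
  exact Finset.sum_congr rfl fun x _ => (cnt_eq_sum _).symm

lemma cnt_exists {β γ : Type*} [Fintype β] (𝓗 : Finset γ) (φ : γ → β → Prop) :
    cnt (fun x => ∃ P ∈ 𝓗, φ P x) ≤ ∑ P ∈ 𝓗, cnt (φ P) := by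
  classical
  unfold cnt
  refine le_trans (Finset.card_le_card ?_) Finset.card_biUnion_le
  intro x hx
  obtain ⟨P, hP, hx⟩ := mem_sol.1 hx
  exact Finset.mem_biUnion.2 ⟨P, hP, mem_sol.2 hx⟩

lemma cnt_range_subset (u : ℕ) (P : Set (Fin n)) :
    cnt (fun V : Fin u → Fin n => Set.range V ⊆ P) = P.ncard ^ u := by
  classical
  unfold cnt
  have : (sol fun V : Fin u → Fin n => Set.range V ⊆ P) =
      Fintype.piFinset (fun _ : Fin u => P.toFinset) := by
    ext V
    rw [mem_sol, Fintype.mem_piFinset]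
    simp only [Set.mem_toFinset]
    exact Set.range_subset_iff
  rw [this, Fintype.card_piFinset, Set.ncard_eq_toFinset_card']
  simp

lemma exists_split {α : Type*} {a u N : ℕ} (h : a + u = N) :
    ∃ e : (Fin N → α) ≃ (Fin a → α) × (Fin u → α),
      ∀ x, Set.range x = Set.range (e x).1 ∪ Set.range (e x).2 := by
  subst h
  refine ⟨(Fin.appendEquiv a u).symm, ?_⟩
  intro x
  obtain ⟨p, rfl⟩ := (Fin.appendEquiv a u).surjective x
  rw [Equiv.symm_apply_apply]
  ext y
  constructor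
  · rintro ⟨k, rfl⟩
    refine Fin.addCases (fun i => ?_) (fun i => ?_) k
    · left; exact ⟨i, by simp [Fin.appendEquiv]⟩
    · right; exact ⟨i, by simp [Fin.appendEquiv]⟩
  · rintro (⟨i, rfl⟩ | ⟨i, rfl⟩)
    · exact ⟨Fin.castAdd u i, by simp [Fin.appendEquiv]⟩
    · exact ⟨Fin.natAdd a i, by simp [Fin.appendEquiv]⟩

lemma card_tuples (u : ℕ) : Fintype.card (Fin u → Fin n) = n ^ u := by
  rw [Fintype.card_fun, Fintype.card_fin, Fintype.card_fin]

/-- The number of tuples of small rank. -/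
noncomputable def lowT (M : Matroid (Fin n)) (s : ℕ) : ℕ :=
  cnt (fun x : Fin (s + 1) → Fin n => rk M (Set.range x) < s)

/-- Two hyperplanes meet in small rank. -/
lemma rk_inter_lt {M : Matroid (Fin n)} (hE : M.E = Set.univ) {P Q : Set (Fin n)}
    (hP : IsHyp M s P) (hQ : IsHyp M s Q) (hPQ : P ≠ Q) : rk M (P ∩ Q) < s := by
  by_contra hcon
  push Not at hcon
  exact hPQ ((hP.eq_closure hE Set.inter_subset_left hcon).trans
    (hQ.eq_closure hE Set.inter_subset_right hcon).symm)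

/-- The main counting step for one class of hyperplanes. -/
theorem class_count {M : Matroid (Fin n)} (hE : M.E = Set.univ) {a u K t : ℕ} (hn : 0 < n)
    (hK : 0 < K) (hau : a + u = s + 1) (𝓗 : Finset (Set (Fin n)))
    (hH : ∀ P ∈ 𝓗, IsHyp M s P) (ht : ∀ P ∈ 𝓗, t ≤ P.ncard) (hKt : n ≤ K * t)
    (hup : ∀ P ∈ 𝓗, K ^ 2 * P.ncard ^ u ≤ n ^ u) (hlow : n ^ (3 * u) ≤ K ^ 9 * t ^ (3 * u))
    (hτ : K ^ 10 * lowT M s ≤ n ^ (s + 1)) :
    K * cnt (fun x : Fin (s + 1) → Fin n => ∃ P ∈ 𝓗, Set.range x ⊆ P) ≤ 2 * n ^ (s + 1) := by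
  classical
  obtain ⟨e, he⟩ := exists_split (α := Fin n) hau
  have h1 : cnt (fun x : Fin (s + 1) → Fin n => ∃ P ∈ 𝓗, Set.range x ⊆ P) =
      ∑ W : Fin a → Fin n, cnt (fun V : Fin u → Fin n =>
        ∃ P ∈ 𝓗, Set.range W ∪ Set.range V ⊆ P) := by
    rw [← cnt_prod (fun (W : Fin a → Fin n) (V : Fin u → Fin n) =>
      ∃ P ∈ 𝓗, Set.range W ∪ Set.range V ⊆ P), ← cnt_equiv e]
    simp only [he]
  have h2 : lowT M s = ∑ W : Fin a → Fin n, cnt (fun V : Fin u → Fin n =>
        rk M (Set.range W ∪ Set.range V) < s) := by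
    rw [← cnt_prod (fun (W : Fin a → Fin n) (V : Fin u → Fin n) =>
      rk M (Set.range W ∪ Set.range V) < s), ← cnt_equiv e, lowT]
    simp only [he]
  have key : ∀ W : Fin a → Fin n, K * cnt (fun V : Fin u → Fin n =>
        ∃ P ∈ 𝓗, Set.range W ∪ Set.range V ⊆ P) ≤
      n ^ u + K ^ 10 * cnt (fun V : Fin u → Fin n => rk M (Set.range W ∪ Set.range V) < s) := by
    intro W
    set 𝒬 := 𝓗.filter (fun P => Set.range W ⊆ P) with h𝒬
    by_cases hq : 𝒬.card ≤ K
    · refine le_trans ?_ (Nat.le_add_right _ _)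
      have h3 : cnt (fun V : Fin u → Fin n => ∃ P ∈ 𝓗, Set.range W ∪ Set.range V ⊆ P) ≤
          ∑ P ∈ 𝒬, P.ncard ^ u := by
        calc cnt (fun V : Fin u → Fin n => ∃ P ∈ 𝓗, Set.range W ∪ Set.range V ⊆ P)
            ≤ cnt (fun V : Fin u → Fin n => ∃ P ∈ 𝒬, Set.range V ⊆ P) := by
              refine cnt_mono ?_
              rintro V ⟨P, hP, hWV⟩
              refine ⟨P, ?_, Set.subset_union_right.trans hWV⟩
              rw [h𝒬, Finset.mem_filter]
              exact ⟨hP, Set.subset_union_left.trans hWV⟩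
          _ ≤ ∑ P ∈ 𝒬, cnt (fun V : Fin u → Fin n => Set.range V ⊆ P) := cnt_exists _ _
          _ = ∑ P ∈ 𝒬, P.ncard ^ u := Finset.sum_congr rfl fun P _ => cnt_range_subset u P
      have h4 : K ^ 2 * ∑ P ∈ 𝒬, P.ncard ^ u ≤ K * n ^ u := by
        rw [Finset.mul_sum]
        calc ∑ P ∈ 𝒬, K ^ 2 * P.ncard ^ u ≤ ∑ P ∈ 𝒬, n ^ u :=
              Finset.sum_le_sum fun P hP => hup P (Finset.mem_filter.1 hP).1
          _ = 𝒬.card * n ^ u := by rw [Finset.sum_const, smul_eq_mul]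
          _ ≤ K * n ^ u := Nat.mul_le_mul_right _ hq
      have h5 : K * (K * cnt (fun V : Fin u → Fin n =>
          ∃ P ∈ 𝓗, Set.range W ∪ Set.range V ⊆ P)) ≤ K * n ^ u := by
        refine le_trans ?_ h4
        calc K * (K * cnt (fun V : Fin u → Fin n =>
              ∃ P ∈ 𝓗, Set.range W ∪ Set.range V ⊆ P)) = K ^ 2 * cnt (fun V : Fin u → Fin n =>
              ∃ P ∈ 𝓗, Set.range W ∪ Set.range V ⊆ P) := by ring
          _ ≤ _ := Nat.mul_le_mul_left _ h3
      exact Nat.le_of_mul_le_mul_left h5 hK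
    · refine le_trans ?_ (Nat.le_add_left _ _)
      push Not at hq
      obtain ⟨P, hP, Q, hQ, hPQ, hcard⟩ := exists_pair (n := n) (K := K) (t := t) (𝒬 := 𝒬)
        (Fintype.card_fin n) hn hq (fun P hP => ht P (Finset.mem_filter.1 hP).1) hKt
      rw [h𝒬, Finset.mem_filter] at hP hQ
      have h3 : cnt (fun V : Fin u → Fin n => ∃ P ∈ 𝓗, Set.range W ∪ Set.range V ⊆ P) ≤ n ^ u := by
        refine (cnt_le_card _).trans ?_
        rw [card_tuples]
      have h4 : (P ∩ Q).ncard ^ u ≤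
          cnt (fun V : Fin u → Fin n => rk M (Set.range W ∪ Set.range V) < s) := by
        rw [← cnt_range_subset]
        refine cnt_mono ?_
        intro V hV
        refine lt_of_le_of_lt (rk_mono M ?_) (rk_inter_lt hE (hH P hP.1) (hH Q hQ.1) hPQ)
        exact Set.union_subset (Set.subset_inter hP.2 hQ.2) hV
      have h5 : n ^ u ≤ K ^ 9 * (P ∩ Q).ncard ^ u := by
        have h6 : t ^ (3 * u) ≤ (P ∩ Q).ncard ^ u * n ^ (2 * u) := by
          calc t ^ (3 * u) = (t ^ 3) ^ u := by rw [← pow_mul]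
            _ ≤ ((P ∩ Q).ncard * n ^ 2) ^ u := Nat.pow_le_pow_left hcard u
            _ = _ := by rw [mul_pow, ← pow_mul]
        have h7 : n ^ u * n ^ (2 * u) ≤ K ^ 9 * (P ∩ Q).ncard ^ u * n ^ (2 * u) := by
          calc n ^ u * n ^ (2 * u) = n ^ (3 * u) := by rw [← pow_add]; congr 1; ring
            _ ≤ K ^ 9 * t ^ (3 * u) := hlow
            _ ≤ K ^ 9 * ((P ∩ Q).ncard ^ u * n ^ (2 * u)) := Nat.mul_le_mul_left _ h6
            _ = _ := by ring
        exact Nat.le_of_mul_le_mul_right h7 (by positivity)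
      calc K * cnt (fun V : Fin u → Fin n => ∃ P ∈ 𝓗, Set.range W ∪ Set.range V ⊆ P)
          ≤ K * n ^ u := Nat.mul_le_mul_left _ h3
        _ ≤ K * (K ^ 9 * (P ∩ Q).ncard ^ u) := Nat.mul_le_mul_left _ h5
        _ = K ^ 10 * (P ∩ Q).ncard ^ u := by ring
        _ ≤ _ := Nat.mul_le_mul_left _ h4
  rw [h1, Finset.mul_sum]
  calc ∑ W : Fin a → Fin n, K * cnt (fun V : Fin u → Fin n =>
        ∃ P ∈ 𝓗, Set.range W ∪ Set.range V ⊆ P)
      ≤ ∑ W : Fin a → Fin n, (n ^ u + K ^ 10 * cnt (fun V : Fin u → Fin n =>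
        rk M (Set.range W ∪ Set.range V) < s)) := Finset.sum_le_sum fun W _ => key W
    _ = n ^ a * n ^ u + K ^ 10 * lowT M s := by
        rw [Finset.sum_add_distrib, Finset.sum_const, Finset.card_univ, card_tuples,
          smul_eq_mul, ← Finset.mul_sum, h2]
    _ ≤ n ^ (s + 1) + n ^ (s + 1) := by
        rw [← pow_add, hau]
        exact Nat.add_le_add_left hτ _
    _ = 2 * n ^ (s + 1) := by ring

end Pool.Agent.Work.MP_f3d170_co_helper60b
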