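import Mathlib
import Pool.Agent.Work.MP_f3d170_co_helper60b.Struct

set_option autoImplicit false

open Set Matroid
open Pool.Agent.Work.MP_f3d170_co_helper60

namespace Pool.Agent.Work.MP_f3d170_co_helper60b

variable {n s : ℕ}

/-- In a dependent tuple some entry is in the closure of the others. -/
lemma exists_mem_closure {M : Matroid (Fin n)} {s' : ℕ} (hE : M.E = Set.univ)
    (X : Fin (s' + 1) → Fin n) (hX : rk M (Set.range X) < s' + 1) :
    ∃ j : Fin (s' + 1), X j ∈ M.closure (Set.range fun k => X (j.succAbove k)) := by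
  by_contra hcon
  push Not at hcon
  have hsub : ∀ Y : Set (Fin n), Y ⊆ M.E := fun Y => by rw [hE]; exact Set.subset_univ _
  have hinj : Function.Injective X := by
    intro i j hij
    by_contra hne
    apply hcon j
    refine M.subset_closure _ (hsub _) ?_
    obtain ⟨k, hk⟩ := Fin.exists_succAbove_eq hne
    exact ⟨k, by rw [← hij]; exact congrArg X hk⟩
  have hind : M.Indep (Set.range X) := by
    rw [indep_iff_forall_notMem_closure_sdiff (hsub _)]
    rintro _ ⟨j, rfl⟩ hj
    apply hcon j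
    refine M.closure_subset_closure ?_ hj
    rintro _ ⟨⟨i, rfl⟩, hi⟩
    have hij : i ≠ j := by
      rintro rfl
      exact hi rfl
    obtain ⟨k, hk⟩ := Fin.exists_succAbove_eq hij
    exact ⟨k, congrArg X hk⟩
  rw [indep_iff_rk.1 hind, ← Set.image_univ, Set.ncard_image_of_injective _ hinj, Set.ncard_univ,
    Nat.card_fin] at hX
  omega

lemma cnt_removeNth {s' : ℕ} (j : Fin (s' + 1)) (F : (Fin s' → Fin n) → Set (Fin n)) :
    cnt (fun X : Fin (s' + 1) → Fin n => X j ∈ F (fun k => X (j.succAbove k))) =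
      ∑ Z : Fin s' → Fin n, (F Z).ncard := by
  have h1 : cnt (fun X : Fin (s' + 1) → Fin n => X j ∈ F (fun k => X (j.succAbove k))) =
      cnt (fun p : (Fin s' → Fin n) × Fin n => p.2 ∈ F p.1) := by
    rw [← cnt_equiv (((Fin.insertNthEquiv (fun _ => Fin n) j).symm).trans (Equiv.prodComm _ _))
      (fun p : (Fin s' → Fin n) × Fin n => p.2 ∈ F p.1)]
    rfl
  rw [h1, cnt_prod (fun (Z : Fin s' → Fin n) (y : Fin n) => y ∈ F Z)]
  refine Finset.sum_congr rfl fun Z _ => ?_
  classical
  unfold cnt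
  rw [Set.ncard_eq_toFinset_card']
  congr 1
  ext y
  rw [mem_sol, Set.mem_toFinset]

/-- Few `s`-tuples are dependent. -/
lemma dep_short {M : Matroid (Fin n)} (hE : M.E = Set.univ) {K s' : ℕ} (hsK : s' + 1 ≤ K)
    (hτ : K ^ 10 * lowT M (s' + 1) ≤ n ^ (s' + 1 + 1)) :
    K * cnt (fun X : Fin (s' + 1) → Fin n => rk M (Set.range X) < s' + 1) ≤ n ^ (s' + 1) := by
  classical
  set S := ∑ Z : Fin s' → Fin n, (M.closure (Set.range Z)).ncard with hS
  have h1 : cnt (fun X : Fin (s' + 1) → Fin n => rk M (Set.range X) < s' + 1) ≤ (s' + 1) * S := by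
    calc cnt (fun X : Fin (s' + 1) → Fin n => rk M (Set.range X) < s' + 1)
        ≤ cnt (fun X : Fin (s' + 1) → Fin n => ∃ j ∈ (Finset.univ : Finset (Fin (s' + 1))),
            X j ∈ M.closure (Set.range fun k => X (j.succAbove k))) := by
          refine cnt_mono ?_
          intro X hX
          obtain ⟨j, hj⟩ := exists_mem_closure hE X hX
          exact ⟨j, Finset.mem_univ _, hj⟩
      _ ≤ ∑ j : Fin (s' + 1), cnt (fun X : Fin (s' + 1) → Fin n =>
            X j ∈ M.closure (Set.range fun k => X (j.succAbove k))) := cnt_exists _ _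
      _ = ∑ _j : Fin (s' + 1), S := Finset.sum_congr rfl fun j _ =>
          cnt_removeNth j (fun Z => M.closure (Set.range Z))
      _ = (s' + 1) * S := by
          rw [Finset.sum_const, Finset.card_univ, Fintype.card_fin, smul_eq_mul]
  have h2 : S ^ 2 ≤ n ^ s' * ∑ Z : Fin s' → Fin n, (M.closure (Set.range Z)).ncard ^ 2 := by
    have := sq_sum_le_card_mul_sum_sq (s := (Finset.univ : Finset (Fin s' → Fin n)))
      (f := fun Z => (M.closure (Set.range Z)).ncard)
    rwa [Finset.card_univ, card_tuples] at this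
  have h3 : ∑ Z : Fin s' → Fin n, (M.closure (Set.range Z)).ncard ^ 2 ≤ lowT M (s' + 1) := by
    obtain ⟨e, he⟩ := exists_split (α := Fin n) (show s' + 2 = s' + 1 + 1 by omega)
    have h4 : lowT M (s' + 1) = ∑ W : Fin s' → Fin n, cnt (fun V : Fin 2 → Fin n =>
        rk M (Set.range W ∪ Set.range V) < s' + 1) := by
      rw [← cnt_prod (fun (W : Fin s' → Fin n) (V : Fin 2 → Fin n) =>
        rk M (Set.range W ∪ Set.range V) < s' + 1), ← cnt_equiv e, lowT]
      simp only [he]
    rw [h4]
    refine Finset.sum_le_sum fun Z _ => ?_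
    rw [← cnt_range_subset]
    refine cnt_mono ?_
    intro V hV
    have h5 : Set.range Z ∪ Set.range V ⊆ M.closure (Set.range Z) :=
      Set.union_subset (M.subset_closure _ (by rw [hE]; exact Set.subset_univ _)) hV
    have h6 := rk_le_of_subset_closure h5
    have h7 := rk_le_ncard M (Set.range Z)
    have h8 : (Set.range Z).ncard ≤ s' := by
      rw [← Set.image_univ]
      refine (Set.ncard_image_le (Set.toFinite _)).trans ?_
      rw [Set.ncard_univ, Nat.card_fin]
    omega
  have h4 : (K ^ 5 * S) ^ 2 ≤ (n ^ (s' + 1)) ^ 2 := by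
    calc (K ^ 5 * S) ^ 2 = K ^ 10 * S ^ 2 := by ring
      _ ≤ K ^ 10 * (n ^ s' * lowT M (s' + 1)) :=
          Nat.mul_le_mul_left _ (h2.trans (Nat.mul_le_mul_left _ h3))
      _ = n ^ s' * (K ^ 10 * lowT M (s' + 1)) := by ring
      _ ≤ n ^ s' * n ^ (s' + 1 + 1) := Nat.mul_le_mul_left _ hτ
      _ = (n ^ (s' + 1)) ^ 2 := by rw [← pow_add, ← pow_mul]; congr 1; ring
  have h5 : K ^ 5 * S ≤ n ^ (s' + 1) := (Nat.pow_le_pow_iff_left (by norm_num)).1 h4
  have hK : 1 ≤ K := by omega
  calc K * cnt (fun X : Fin (s' + 1) → Fin n => rk M (Set.range X) < s' + 1)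
      ≤ K * ((s' + 1) * S) := Nat.mul_le_mul_left _ h1
    _ ≤ K * (K * S) := by gcongr
    _ = K ^ 2 * S := by ring
    _ ≤ K ^ 5 * S := Nat.mul_le_mul_right _ (Nat.pow_le_pow_right hK (by norm_num))
    _ ≤ _ := h5

/-- The class of hyperplanes with index `u`. -/
def Cls (M : Matroid (Fin n)) (s K u : ℕ) (P : Set (Fin n)) : Prop :=
  IsHyp M s P ∧ n < K * P.ncard ∧ K ^ 2 * P.ncard ^ u ≤ n ^ u ∧
    n ^ (u - 1) < K ^ 2 * P.ncard ^ (u - 1)

lemma cls_count {M : Matroid (Fin n)} (hE : M.E = Set.univ) {K u : ℕ} (hn : 0 < n) (hK : 0 < K)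
    (hu : 2 ≤ u) (hus : u ≤ s + 1) (hτ : K ^ 10 * lowT M s ≤ n ^ (s + 1)) :
    K * cnt (fun x : Fin (s + 1) → Fin n => ∃ P, Cls M s K u P ∧ Set.range x ⊆ P) ≤
      2 * n ^ (s + 1) := by
  classical
  set 𝓗 : Finset (Set (Fin n)) := sol (fun P => Cls M s K u P) with h𝓗
  have h0 : cnt (fun x : Fin (s + 1) → Fin n => ∃ P, Cls M s K u P ∧ Set.range x ⊆ P) ≤
      cnt (fun x : Fin (s + 1) → Fin n => ∃ P ∈ 𝓗, Set.range x ⊆ P) := by
    refine cnt_mono ?_
    rintro x ⟨P, hP, hx⟩
    exact ⟨P, mem_sol.2 hP, hx⟩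
  rcases 𝓗.eq_empty_or_nonempty with hemp | hne
  · have h1 : cnt (fun x : Fin (s + 1) → Fin n => ∃ P ∈ 𝓗, Set.range x ⊆ P) = 0 := by
      unfold cnt
      rw [Finset.card_eq_zero, Finset.eq_empty_iff_forall_notMem]
      intro x hx
      obtain ⟨P, hP, -⟩ := mem_sol.1 hx
      rw [hemp] at hP
      simp at hP
    have h2 : cnt (fun x : Fin (s + 1) → Fin n => ∃ P, Cls M s K u P ∧ Set.range x ⊆ P) = 0 := by
      omega
    rw [h2]; simp
  · obtain ⟨P₀, hP₀, hmin⟩ := Finset.exists_min_image 𝓗 Set.ncard hne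
    have hP₀' : Cls M s K u P₀ := mem_sol.1 hP₀
    refine (Nat.mul_le_mul_left _ h0).trans ?_
    refine class_count hE (a := s + 1 - u) (u := u) (t := P₀.ncard) hn hK (by omega) 𝓗
      (fun P hP => (mem_sol.1 hP).1) hmin hP₀'.2.1.le (fun P hP => (mem_sol.1 hP).2.2.1) ?_ hτ
    have h3 : n ^ u ≤ K ^ 3 * P₀.ncard ^ u := by
      obtain ⟨v, rfl⟩ : ∃ v, u = v + 1 := ⟨u - 1, by omega⟩
      have h4 := hP₀'.2.2.2
      rw [Nat.add_sub_cancel] at h4
      calc n ^ (v + 1) = n ^ v * n := pow_succ _ _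
        _ ≤ (K ^ 2 * P₀.ncard ^ v) * (K * P₀.ncard) := Nat.mul_le_mul h4.le hP₀'.2.1.le
        _ = K ^ 3 * P₀.ncard ^ (v + 1) := by ring
    calc n ^ (3 * u) = (n ^ u) ^ 3 := by rw [← pow_mul]; congr 1; ring
      _ ≤ (K ^ 3 * P₀.ncard ^ u) ^ 3 := Nat.pow_le_pow_left h3 3
      _ = K ^ 9 * P₀.ncard ^ (3 * u) := by
          rw [mul_pow, ← pow_mul, ← pow_mul]; congr 2; ring

/-- Few `(s+1)`-tuples are dependent. -/
theorem dep_count {M : Matroid (Fin n)} (hE : M.E = Set.univ) {K : ℕ} (hn : 0 < n) (hs : 1 ≤ s)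
    (hK : 2 ≤ K) (hsK : s ≤ K) (hτ : K ^ 10 * lowT M s ≤ n ^ (s + 1))
    (hhyp : ∀ P, IsHyp M s P → K ^ 10 * P.ncard ^ (s + 1) ≤ n ^ (s + 1)) :
    K * cnt (fun x : Fin (s + 1) → Fin n => rk M (Set.range x) < s + 1) ≤
      (2 * s + 2) * n ^ (s + 1) := by
  classical
  obtain ⟨e, he⟩ := exists_split (α := Fin n) (show s + 1 = s + 1 from rfl)
  have hsub : ∀ Y : Set (Fin n), Y ⊆ M.E := fun Y => by rw [hE]; exact Set.subset_univ _
  -- the three cases
  set A : (Fin (s + 1) → Fin n) → Prop := fun x => rk M (Set.range (e x).1) < s with hA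
  set B : (Fin (s + 1) → Fin n) → Prop := fun x =>
    K * (M.closure (Set.range (e x).1)).ncard ≤ n ∧
      Set.range (e x).2 ⊆ M.closure (Set.range (e x).1) with hB
  set C : (Fin (s + 1) → Fin n) → Prop := fun x =>
    ∃ u ∈ Finset.Icc 2 (s + 1), ∃ P, Cls M s K u P ∧ Set.range x ⊆ P with hC
  have hcov : ∀ x, rk M (Set.range x) < s + 1 → (A x ∨ B x) ∨ C x := by
    intro x hx
    by_cases hAx : A x
    · exact Or.inl (Or.inl hAx)
    · have hXrk : rk M (Set.range (e x).1) = s := by
        have h1 : s ≤ rk M (Set.range (e x).1) := not_lt.1 hAx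
        have h2 : rk M (Set.range (e x).1) ≤ rk M (Set.range x) := by
          rw [he x]; exact rk_mono M Set.subset_union_left
        omega
      have hcl : M.closure (Set.range (e x).1) = M.closure (Set.range x) := by
        refine closure_eq_of_rk ?_ (by omega)
        rw [he x]; exact Set.subset_union_left
      have hxcl : Set.range x ⊆ M.closure (Set.range (e x).1) := by
        rw [hcl]; exact M.subset_closure _ (hsub _)
      set P := M.closure (Set.range (e x).1) with hP
      have hPh : IsHyp M s P := closure_isHyp hXrk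
      by_cases hsmall : K * P.ncard ≤ n
      · left; right
        exact ⟨hsmall, fun y hy => hxcl (by rw [he x]; exact Or.inr hy)⟩
      · right
        push Not at hsmall
        have hex : ∃ u, K ^ 2 * P.ncard ^ u ≤ n ^ u := by
          refine ⟨s + 1, le_trans ?_ (hhyp P hPh)⟩
          exact Nat.mul_le_mul_right _ (Nat.pow_le_pow_right (by omega) (by norm_num))
        have hle : Nat.find hex ≤ s + 1 := by
          refine Nat.find_min' hex (le_trans ?_ (hhyp P hPh))
          exact Nat.mul_le_mul_right _ (Nat.pow_le_pow_right (by omega) (by norm_num))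
        have h2 : 2 ≤ Nat.find hex := by
          by_contra hcon
          have hsp := Nat.find_spec hex
          have h3 : Nat.find hex = 0 ∨ Nat.find hex = 1 := by omega
          rcases h3 with h3 | h3
          · rw [h3] at hsp
            simp only [pow_zero, mul_one] at hsp
            nlinarith
          · rw [h3] at hsp
            simp only [pow_one] at hsp
            have h4 : K * P.ncard ≤ K ^ 2 * P.ncard := by
              refine Nat.mul_le_mul_right _ ?_
              nlinarith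
            omega
        refine ⟨Nat.find hex, Finset.mem_Icc.2 ⟨h2, hle⟩, P, ⟨hPh, hsmall, Nat.find_spec hex, ?_⟩,
          hxcl⟩
        have := Nat.find_min hex (m := Nat.find hex - 1) (by omega)
        exact not_le.1 this
  have h1 : cnt (fun x : Fin (s + 1) → Fin n => rk M (Set.range x) < s + 1) ≤
      cnt A + cnt B + cnt C := by
    refine (cnt_mono hcov).trans ((cnt_or _ _).trans ?_)
    exact Nat.add_le_add_right (cnt_or _ _) _
  have hAc : K * cnt A ≤ n ^ (s + 1) := by
    have h2 : cnt A = cnt (fun X : Fin s → Fin n => rk M (Set.range X) < s) * n := by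
      rw [hA, cnt_equiv e (fun p : (Fin s → Fin n) × (Fin 1 → Fin n) => rk M (Set.range p.1) < s),
        cnt_prod (fun (X : Fin s → Fin n) (_ : Fin 1 → Fin n) => rk M (Set.range X) < s),
        cnt_eq_sum (fun X : Fin s → Fin n => rk M (Set.range X) < s), Finset.sum_mul]
      refine Finset.sum_congr rfl fun X _ => ?_
      by_cases hX : rk M (Set.range X) < s
      · rw [if_pos hX, one_mul, cnt_eq_sum]
        simp only [hX, if_true, Finset.sum_const, Finset.card_univ, card_tuples]
        simp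
      · rw [if_neg hX, zero_mul, cnt_eq_sum]
        simp only [hX, if_false, Finset.sum_const_zero]
    rw [h2, ← mul_assoc]
    obtain ⟨s', rfl⟩ : ∃ s', s = s' + 1 := ⟨s - 1, by omega⟩
    rw [pow_succ n (s' + 1)]
    exact Nat.mul_le_mul_right _ (dep_short hE hsK hτ)
  have hBc : K * cnt B ≤ n ^ (s + 1) := by
    rw [hB, cnt_equiv e (fun p : (Fin s → Fin n) × (Fin 1 → Fin n) =>
      K * (M.closure (Set.range p.1)).ncard ≤ n ∧ Set.range p.2 ⊆ M.closure (Set.range p.1)),
      cnt_prod (fun (X : Fin s → Fin n) (y : Fin 1 → Fin n) =>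
      K * (M.closure (Set.range X)).ncard ≤ n ∧ Set.range y ⊆ M.closure (Set.range X)),
      Finset.mul_sum]
    calc ∑ X : Fin s → Fin n, K * cnt (fun y : Fin 1 → Fin n =>
          K * (M.closure (Set.range X)).ncard ≤ n ∧ Set.range y ⊆ M.closure (Set.range X))
        ≤ ∑ X : Fin s → Fin n, n := by
          refine Finset.sum_le_sum fun X _ => ?_
          by_cases hX : K * (M.closure (Set.range X)).ncard ≤ n
          · refine le_trans ?_ hX
            refine Nat.mul_le_mul_left _ ?_
            have h3 := cnt_range_subset 1 (M.closure (Set.range X))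
            rw [pow_one] at h3
            rw [← h3]
            exact cnt_mono fun y hy => hy.2
          · rw [cnt_eq_sum]
            simp [hX]
      _ = n ^ s * n := by
          rw [Finset.sum_const, Finset.card_univ, card_tuples, smul_eq_mul]
      _ = n ^ (s + 1) := (pow_succ _ _).symm
  have hCc : K * cnt C ≤ 2 * s * n ^ (s + 1) := by
    calc K * cnt C ≤ K * ∑ u ∈ Finset.Icc 2 (s + 1),
          cnt (fun x : Fin (s + 1) → Fin n => ∃ P, Cls M s K u P ∧ Set.range x ⊆ P) :=
          Nat.mul_le_mul_left _ (cnt_exists _ _)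
      _ = ∑ u ∈ Finset.Icc 2 (s + 1), K *
          cnt (fun x : Fin (s + 1) → Fin n => ∃ P, Cls M s K u P ∧ Set.range x ⊆ P) :=
          Finset.mul_sum _ _ _
      _ ≤ ∑ u ∈ Finset.Icc 2 (s + 1), 2 * n ^ (s + 1) := by
          refine Finset.sum_le_sum fun u hu => ?_
          rw [Finset.mem_Icc] at hu
          exact cls_count hE hn (by omega) hu.1 hu.2 hτ
      _ = 2 * s * n ^ (s + 1) := by
          rw [Finset.sum_const, Nat.card_Icc, smul_eq_mul]
          have : s + 1 + 1 - 2 = s := by omega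
          rw [this]; ring
  calc K * cnt (fun x : Fin (s + 1) → Fin n => rk M (Set.range x) < s + 1)
      ≤ K * (cnt A + cnt B + cnt C) := Nat.mul_le_mul_left _ h1
    _ = K * cnt A + K * cnt B + K * cnt C := by ring
    _ ≤ n ^ (s + 1) + n ^ (s + 1) + 2 * s * n ^ (s + 1) :=
        Nat.add_le_add (Nat.add_le_add hAc hBc) hCc
    _ = (2 * s + 2) * n ^ (s + 1) := by ring

end Pool.Agent.Work.MP_f3d170_co_helper60b
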