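import Mathlib
import Pool.Agent.Work.MP_f3d170_co_h45.Defs
import Pool.Agent.Work.MP_f3d170_co_helper60b.Struct2

set_option autoImplicit false

open Set Matroid Nat
open Pool.Agent.Work.MP_f3d170_co_h45 (RankMatroid numBases numCircuits)
open Pool.Agent.Work.MP_f3d170_co_helper60

namespace Pool.Agent.Work.MP_f3d170_co_helper60b

variable {n s : ℕ}

/-- Injective tuples with range in a family. -/
lemma cnt_inj (k : ℕ) (𝒳 : Set (Set (Fin n))) :
    cnt (fun x : Fin k → Fin n => Function.Injective x ∧ Set.range x ∈ 𝒳) ≤ k ! * 𝒳.ncard := by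
  classical
  set F := sol (fun x : Fin k → Fin n => Function.Injective x ∧ Set.range x ∈ 𝒳) with hF
  have h1 : F.card ≤ k ! * (F.image (fun x => Set.range x)).card := by
    refine Finset.card_le_mul_card_image _ _ ?_
    intro C hC
    rw [Finset.mem_image] at hC
    obtain ⟨x₀, hx₀, rfl⟩ := hC
    obtain ⟨hinj, -⟩ := mem_sol.1 hx₀
    calc (F.filter (fun x => Set.range x = Set.range x₀)).card
        ≤ ((Finset.univ : Finset (Equiv.Perm (Fin k))).image
            (fun (σ : Equiv.Perm (Fin k)) (i : Fin k) => x₀ (σ i))).card := by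
          refine Finset.card_le_card ?_
          intro x hx
          rw [Finset.mem_filter] at hx
          obtain ⟨hx1, hx2⟩ := hx
          obtain ⟨hxinj, -⟩ := mem_sol.1 hx1
          rw [Finset.mem_image]
          refine ⟨(Equiv.ofInjective x hxinj).trans ((Equiv.setCongr hx2).trans
            (Equiv.ofInjective x₀ hinj).symm), Finset.mem_univ _, ?_⟩
          funext i
          simp only [Equiv.trans_apply]
          rw [Equiv.apply_ofInjective_symm hinj]
          rfl
      _ ≤ (Finset.univ : Finset (Equiv.Perm (Fin k))).card := Finset.card_image_le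
      _ = k ! := by rw [Finset.card_univ, Fintype.card_perm, Fintype.card_fin]
  refine h1.trans (Nat.mul_le_mul_left _ ?_)
  rw [← Set.ncard_coe_finset]
  refine Set.ncard_le_ncard ?_ (Set.toFinite _)
  intro C hC
  rw [Finset.mem_coe, Finset.mem_image] at hC
  obtain ⟨x, hx, rfl⟩ := hC
  exact (mem_sol.1 hx).2

/-- Non-injective tuples. -/
lemma cnt_noninj :
    cnt (fun x : Fin (s + 1) → Fin n => ¬ Function.Injective x) ≤ (s + 1) ^ 2 * n ^ s := by
  classical
  calc cnt (fun x : Fin (s + 1) → Fin n => ¬ Function.Injective x)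
      ≤ cnt (fun x : Fin (s + 1) → Fin n =>
          ∃ p ∈ (Finset.univ : Finset (Fin (s + 1) × Fin s)), x p.1 ∈
            ({x (p.1.succAbove p.2)} : Set (Fin n))) := by
        refine cnt_mono ?_
        intro x hx
        unfold Function.Injective at hx
        push Not at hx
        obtain ⟨i, j, hij, hne⟩ := hx
        obtain ⟨k, hk⟩ := Fin.exists_succAbove_eq hne.symm
        exact ⟨(i, k), Finset.mem_univ _, by rw [hk]; exact hij⟩
    _ ≤ ∑ p : Fin (s + 1) × Fin s, cnt (fun x : Fin (s + 1) → Fin n => x p.1 ∈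
            ({x (p.1.succAbove p.2)} : Set (Fin n))) := cnt_exists _ _
    _ = ∑ _p : Fin (s + 1) × Fin s, n ^ s := by
        refine Finset.sum_congr rfl fun p _ => ?_
        rw [cnt_removeNth p.1 (fun Z => {Z p.2})]
        simp only [Set.ncard_singleton, Finset.sum_const, Finset.card_univ, card_tuples]
        simp
    _ = (s + 1) * s * n ^ s := by
        rw [Finset.sum_const, Finset.card_univ, Fintype.card_prod, Fintype.card_fin,
          Fintype.card_fin, smul_eq_mul]
    _ ≤ _ := Nat.mul_le_mul_right _ (by nlinarith)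

/-- There is little room. -/
def Typ (M : Matroid (Fin n)) (s D : ℕ) : Prop :=
  ∀ H, (H = ∅ ∨ IsHyp M s H) → (Room (trunc M s) s H).ncard < D

lemma typ_lowT {M : Matroid (Fin n)} {D : ℕ} (h : Typ M s D) :
    lowT M s ≤ (s + 1)! * D + (s + 1) ^ 2 * n ^ s := by
  have h1 := h ∅ (Or.inl rfl)
  calc lowT M s ≤ cnt (fun x : Fin (s + 1) → Fin n =>
        (Function.Injective x ∧ Set.range x ∈ Room (trunc M s) s ∅) ∨
          ¬ Function.Injective x) := by
        refine cnt_mono ?_
        intro x hx
        by_cases hinj : Function.Injective x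
        · left
          refine ⟨hinj, ?_, Or.inr ?_⟩
          · rw [← Set.image_univ, Set.ncard_image_of_injective _ hinj, Set.ncard_univ,
              Nat.card_fin]
          · intro S hS hSc hSind
            have h2 := indep_iff_rk.1 (trunc_indep.1 hSind).1
            have h3 := rk_mono M hS
            omega
        · right; exact hinj
    _ ≤ _ := cnt_or _ _
    _ ≤ (s + 1)! * (Room (trunc M s) s ∅).ncard + (s + 1) ^ 2 * n ^ s :=
        Nat.add_le_add (cnt_inj _ _) cnt_noninj
    _ ≤ _ := by gcongr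

lemma typ_hyp {M : Matroid (Fin n)} {D : ℕ} (h : Typ M s D) {P : Set (Fin n)}
    (hP : IsHyp M s P) : P.ncard ^ (s + 1) ≤ (s + 1)! * D + (s + 1) ^ 2 * n ^ s := by
  have h1 := h P (Or.inr hP)
  calc P.ncard ^ (s + 1) = cnt (fun x : Fin (s + 1) → Fin n => Set.range x ⊆ P) :=
        (cnt_range_subset _ _).symm
    _ ≤ cnt (fun x : Fin (s + 1) → Fin n =>
        (Function.Injective x ∧ Set.range x ∈ Room (trunc M s) s P) ∨
          ¬ Function.Injective x) := by
        refine cnt_mono ?_
        intro x hx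
        by_cases hinj : Function.Injective x
        · left
          refine ⟨hinj, ?_, Or.inl hx⟩
          rw [← Set.image_univ, Set.ncard_image_of_injective _ hinj, Set.ncard_univ,
              Nat.card_fin]
        · right; exact hinj
    _ ≤ _ := cnt_or _ _
    _ ≤ (s + 1)! * (Room (trunc M s) s P).ncard + (s + 1) ^ 2 * n ^ s :=
        Nat.add_le_add (cnt_inj _ _) cnt_noninj
    _ ≤ _ := by gcongr

/-- A tuple all of whose subtuples are independent is a circuit. -/
lemma circuit_of_tuple {M : Matroid (Fin n)} (hE : M.E = Set.univ) (hs : 1 ≤ s)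
    (hr : rk M Set.univ = s + 1) {y : Fin (s + 2) → Fin n}
    (hy : ∀ i : Fin (s + 2), ¬ rk M (Set.range fun k : Fin (s + 1) => y (i.succAbove k)) < s + 1) :
    Function.Injective y ∧ M.IsCircuit (Set.range y) := by
  have hsub : ∀ Y : Set (Fin n), Y ⊆ M.E := fun Y => by rw [hE]; exact Set.subset_univ _
  -- sub-tuples have range of full size
  have hcard : ∀ i : Fin (s + 2),
      (Set.range fun k : Fin (s + 1) => y (i.succAbove k)).ncard = s + 1 := by
    intro i
    have h1 := rk_le_ncard M (Set.range fun k : Fin (s + 1) => y (i.succAbove k))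
    have h2 : (Set.range fun k : Fin (s + 1) => y (i.succAbove k)).ncard ≤ s + 1 := by
      rw [← Set.image_univ]
      refine (Set.ncard_image_le (Set.toFinite _)).trans ?_
      rw [Set.ncard_univ, Nat.card_fin]
    have h3 := hy i
    omega
  have hinj' : ∀ i : Fin (s + 2), Function.Injective fun k : Fin (s + 1) => y (i.succAbove k) := by
    intro i
    have h1 := hcard i
    rw [← Set.image_univ] at h1
    have h2 : (Set.univ : Set (Fin (s + 1))).ncard = s + 1 := by
      rw [Set.ncard_univ, Nat.card_fin]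
    rw [← Set.injOn_univ]
    exact (Set.ncard_image_iff (Set.toFinite _)).1 (h1.trans h2.symm)
  have hinj : Function.Injective y := by
    intro a b hab
    by_contra hne
    obtain ⟨c, hca, hcb⟩ : ∃ c : Fin (s + 2), c ≠ a ∧ c ≠ b := by
      by_contra hcon
      push Not at hcon
      have h1 : (Finset.univ : Finset (Fin (s + 2))) ⊆ {a, b} := by
        intro c _
        by_cases hca : c = a
        · rw [hca]; simp
        · rw [hcon c hca]; simp
      have h2 := (Finset.card_le_card h1).trans Finset.card_le_two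
      rw [Finset.card_univ, Fintype.card_fin] at h2
      omega
    obtain ⟨k, hk⟩ := Fin.exists_succAbove_eq hca.symm
    obtain ⟨l, hl⟩ := Fin.exists_succAbove_eq hcb.symm
    have : k = l := hinj' c (by simp only [hk, hl]; exact hab)
    apply hne
    rw [← hk, ← hl, this]
  refine ⟨hinj, ?_⟩
  have hyc : (Set.range y).ncard = s + 2 := by
    rw [← Set.image_univ, Set.ncard_image_of_injective _ hinj, Set.ncard_univ, Nat.card_fin]
  rw [isCircuit_iff_dep_forall_sdiff_singleton_indep]
  constructor
  · rw [← not_indep_iff (hsub _), indep_iff_rk, hyc]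
    have := rk_mono M (Set.subset_univ (Set.range y))
    omega
  · rintro _ ⟨i, rfl⟩
    have h1 : Set.range y \ {y i} = Set.range fun k : Fin (s + 1) => y (i.succAbove k) := by
      ext z
      constructor
      · rintro ⟨⟨j, rfl⟩, hj⟩
        have hji : j ≠ i := by rintro rfl; exact hj rfl
        obtain ⟨k, hk⟩ := Fin.exists_succAbove_eq hji
        exact ⟨k, congrArg y hk⟩
      · rintro ⟨k, rfl⟩
        refine ⟨⟨_, rfl⟩, ?_⟩
        intro h
        exact Fin.succAbove_ne i k (hinj h)
    rw [h1, indep_iff_rk, hcard i]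
    have h2 := rk_le_ncard M (Set.range fun k : Fin (s + 1) => y (i.succAbove k))
    have h3 := hy i
    rw [hcard i] at h2
    omega

/-- The number of circuits, from the number of dependent tuples. -/
theorem circuit_count (M : RankMatroid n (s + 1)) (hs : 1 ≤ s) :
    n ^ (s + 2) ≤ (s + 2)! * numCircuits M.1 +
      (s + 2) * n * cnt (fun x : Fin (s + 1) → Fin n => rk M.1 (Set.range x) < s + 1) := by
  classical
  have hr : rk M.1 Set.univ = s + 1 := by
    have h := M.2.2
    rw [← M.1.eRk_univ_eq, ← coe_rk] at h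
    exact_mod_cast h
  have h1 : n ^ (s + 2) = cnt (fun _ : Fin (s + 2) → Fin n => True) := by
    rw [cnt_eq_sum]
    simp
  have hbad : ∀ i : Fin (s + 2), cnt (fun y : Fin (s + 2) → Fin n =>
      rk M.1 (Set.range fun k : Fin (s + 1) => y (i.succAbove k)) < s + 1) =
      n * cnt (fun x : Fin (s + 1) → Fin n => rk M.1 (Set.range x) < s + 1) := by
    intro i
    have h2 := cnt_removeNth i (fun Z : Fin (s + 1) → Fin n =>
      ({_w | rk M.1 (Set.range Z) < s + 1} : Set (Fin n)))
    have h3 : cnt (fun y : Fin (s + 2) → Fin n =>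
      rk M.1 (Set.range fun k : Fin (s + 1) => y (i.succAbove k)) < s + 1) =
        cnt (fun X : Fin (s + 2) → Fin n => X i ∈ (fun Z : Fin (s + 1) → Fin n =>
      ({_w | rk M.1 (Set.range Z) < s + 1} : Set (Fin n))) (fun k => X (i.succAbove k))) := rfl
    rw [h3, h2, cnt_eq_sum, Finset.mul_sum]
    refine Finset.sum_congr rfl fun Z _ => ?_
    by_cases hZ : rk M.1 (Set.range Z) < s + 1
    · simp [hZ, Set.ncard_univ]
    · simp [hZ]
  calc n ^ (s + 2) = cnt (fun _ : Fin (s + 2) → Fin n => True) := h1
    _ ≤ cnt (fun y : Fin (s + 2) → Fin n =>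
        (Function.Injective y ∧ Set.range y ∈ {C | M.1.IsCircuit C}) ∨
        ∃ i ∈ (Finset.univ : Finset (Fin (s + 2))),
          rk M.1 (Set.range fun k : Fin (s + 1) => y (i.succAbove k)) < s + 1) := by
        refine cnt_mono ?_
        intro y _
        by_cases hy : ∃ i ∈ (Finset.univ : Finset (Fin (s + 2))),
          rk M.1 (Set.range fun k : Fin (s + 1) => y (i.succAbove k)) < s + 1
        · right; exact hy
        · left
          refine circuit_of_tuple M.2.1 hs hr ?_
          intro i hi
          exact hy ⟨i, Finset.mem_univ _, hi⟩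
    _ ≤ _ := cnt_or _ _
    _ ≤ (s + 2)! * {C | M.1.IsCircuit C}.ncard + ∑ i : Fin (s + 2),
          cnt (fun y : Fin (s + 2) → Fin n =>
          rk M.1 (Set.range fun k : Fin (s + 1) => y (i.succAbove k)) < s + 1) :=
        Nat.add_le_add (cnt_inj _ _) (cnt_exists _ _)
    _ = (s + 2)! * numCircuits M.1 +
      (s + 2) * n * cnt (fun x : Fin (s + 1) → Fin n => rk M.1 (Set.range x) < s + 1) := by
        rw [Finset.sum_congr rfl fun i _ => hbad i, Finset.sum_const, Finset.card_univ,
          Fintype.card_fin, smul_eq_mul, mul_assoc]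
        rfl

/-- Typical matroids have many circuits. -/
theorem typ_circuits (M : RankMatroid n (s + 1)) (hn : 0 < n) (hs : 1 ≤ s) {D k : ℕ} (hk : 1 ≤ k)
    (h : Typ M.1 s D)
    (hD : ((s + 2) * (2 * s + 2) * k) ^ 10 * ((s + 1)! * D + (s + 1) ^ 2 * n ^ s) ≤ n ^ (s + 1)) :
    (k - 1) * n ^ (s + 2) ≤ k * ((s + 2)! * numCircuits M.1) := by
  set K := (s + 2) * (2 * s + 2) * k with hK
  have hK2 : 2 ≤ K := by rw [hK]; nlinarith [Nat.zero_le s]
  have hsK : s ≤ K := by rw [hK]; nlinarith [Nat.zero_le s]
  have h1 := dep_count (M := M.1) (K := K) M.2.1 hn hs hK2 hsK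
    ((Nat.mul_le_mul_left _ (typ_lowT h)).trans hD)
    (fun P hP => (Nat.mul_le_mul_left _ (typ_hyp h hP)).trans hD)
  have h2 := circuit_count M hs
  set Nd := cnt (fun x : Fin (s + 1) → Fin n => rk M.1 (Set.range x) < s + 1) with hNd
  have h3 : k * ((s + 2) * n * Nd) ≤ n ^ (s + 2) := by
    have h4 : (2 * s + 2) * (k * ((s + 2) * n * Nd)) ≤ (2 * s + 2) * n ^ (s + 2) := by
      calc (2 * s + 2) * (k * ((s + 2) * n * Nd)) = n * (K * Nd) := by rw [hK]; ring
        _ ≤ n * ((2 * s + 2) * n ^ (s + 1)) := Nat.mul_le_mul_left _ h1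
        _ = (2 * s + 2) * n ^ (s + 2) := by ring
    exact Nat.le_of_mul_le_mul_left h4 (by omega)
  have h5 : k * n ^ (s + 2) ≤ k * ((s + 2)! * numCircuits M.1) + n ^ (s + 2) := by
    calc k * n ^ (s + 2) ≤ k * ((s + 2)! * numCircuits M.1 + (s + 2) * n * Nd) :=
          Nat.mul_le_mul_left _ h2
      _ = k * ((s + 2)! * numCircuits M.1) + k * ((s + 2) * n * Nd) := by ring
      _ ≤ _ := Nat.add_le_add_left h3 _
  obtain ⟨k', rfl⟩ : ∃ k', k = k' + 1 := ⟨k - 1, by omega⟩
  rw [Nat.add_sub_cancel]
  have h6 : (k' + 1) * n ^ (s + 2) = k' * n ^ (s + 2) + n ^ (s + 2) := by ring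
  omega

/-- The number of bases. -/
lemma fact_mul_numBases (M : RankMatroid n (s + 1)) :
    (s + 1)! * numBases M.1 ≤ n ^ (s + 1) := by
  classical
  have h1 : numBases M.1 ≤ n.choose (s + 1) := by
    have hsub : {B | M.1.IsBase B} ⊆ (fun F : Finset (Fin n) => (F : Set (Fin n))) ''
        ((Finset.powersetCard (s + 1) (Finset.univ : Finset (Fin n)) : Finset (Finset (Fin n))) :
          Set (Finset (Fin n))) := by
      intro B hB
      refine ⟨B.toFinset, ?_, by simp⟩
      rw [Finset.mem_coe, Finset.mem_powersetCard]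
      refine ⟨Finset.subset_univ _, ?_⟩
      rw [← Set.ncard_eq_toFinset_card']
      have h2 := (hB : M.1.IsBase B).encard_eq_eRank
      rw [M.2.2, ← (Set.toFinite B).cast_ncard_eq] at h2
      exact_mod_cast h2
    calc numBases M.1 = {B | M.1.IsBase B}.ncard := rfl
      _ ≤ _ := Set.ncard_le_ncard hsub (Set.toFinite _)
      _ ≤ _ := Set.ncard_image_le (Set.toFinite _)
      _ = n.choose (s + 1) := by
          rw [Set.ncard_coe_finset, Finset.card_powersetCard, Finset.card_univ, Fintype.card_fin]
  calc (s + 1)! * numBases M.1 ≤ (s + 1)! * n.choose (s + 1) := Nat.mul_le_mul_left _ h1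
    _ = n.descFactorial (s + 1) := (Nat.descFactorial_eq_factorial_mul_choose n (s + 1)).symm
    _ ≤ n ^ (s + 1) := Nat.descFactorial_le_pow _ _

end Pool.Agent.Work.MP_f3d170_co_helper60b
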