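import Mathlib
import Pool.Agent.Work.MP_f3d170_co_h45.Defs
import Pool.Agent.Work.MP_f3d170_co_h45.Final
import Pool.Agent.Work.MP_f3d170_co_helper60.Assemble
import Pool.Agent.Work.MP_f3d170_co_helper60b.Low
import Pool.Agent.Work.MP_f3d170_co_helper60b.Atyp
import Pool.Agent.Work.MP_f3d170_co_helper60b.Typ
import Pool.Agent.Work.MP_f3d170_co_helper60b.Num

set_option autoImplicit false

open Set Matroid Nat
open Pool.Agent.Work.MP_f3d170_co_h45
open Pool.Agent.Work.MP_f3d170_co_helper60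

namespace Pool.Agent.Work.MP_f3d170_co_helper60b

variable {n s : ℕ}

/-- Atypical matroids are rare. -/
theorem atyp_rare {k : ℕ} (hs : 2 ≤ s) (hk : 1 ≤ k) (hn : (2 * (s + 1) * k) ^ 24 ≤ n) :
    k * n ! * Nat.card (Atyp n s (n * (n ^ s / (2 * ((s + 2) * (2 * s + 2) * k) ^ 10 * (s + 1)!))))
      ≤ Nat.card (RankMatroid n (s + 1)) := by
  set K := (s + 2) * (2 * s + 2) * k with hK
  set g := n ^ s / (2 * K ^ 10 * (s + 1)!) with hg
  have hX1 : 1 ≤ 2 * (s + 1) * k := by nlinarith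
  have hXn : (2 * (s + 1) * k) ^ 2 ≤ n := (Nat.pow_le_pow_right hX1 (by norm_num)).trans hn
  have hX1n : 2 * (s + 1) * k ≤ n := by
    calc 2 * (s + 1) * k = (2 * (s + 1) * k) ^ 1 := (pow_one _).symm
      _ ≤ _ := Nat.pow_le_pow_right hX1 (by norm_num)
      _ ≤ n := hn
  have hsn : s + 1 ≤ n := by nlinarith
  have hkn : k ≤ n := by nlinarith
  have h2s : 2 * s ^ 2 ≤ n := by
    have : (2 * (s + 1) * 1) ^ 2 ≤ (2 * (s + 1) * k) ^ 2 := Nat.pow_le_pow_left (by gcongr) 2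
    nlinarith
  have hL : 4 * n ≤ 2 ^ (Nat.log 2 n + 3) := by
    have h1 : n < 2 ^ (Nat.log 2 n + 1) := Nat.lt_pow_succ_log_self (by norm_num) n
    have h2 : 2 ^ (Nat.log 2 n + 3) = 4 * 2 ^ (Nat.log 2 n + 1) := by
      rw [pow_add, pow_add]; ring
    omega
  have hK1 : 1 ≤ K := by rw [hK]; nlinarith [Nat.zero_le s]
  have hA := threshold hs hk hn
  rw [← hK] at hA
  have ha : Nat.card (LowRank n s) ≤ (4 * n) ^ ((n + s).choose (s - 1)) := by
    obtain ⟨ρ, rfl⟩ : ∃ ρ, s = ρ + 2 := ⟨s - 2, by omega⟩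
    exact card_lowRank_choose (by omega) ρ
  have h1 := compare (n := n) (s := s) (k := k) (a := Nat.card (LowRank n s)) (K := K)
    (L := Nat.log 2 n + 3) (g := g) hs h2s hkn hL hK1 hA ha rfl
  have h2 := card_atyp_le (n := n) (s := s) (D := n * g) (g := g) hsn le_rfl
  set m := Nat.card (RankMatroid n (s + 1)) with hm
  have hm1 : 1 ≤ m := by
    have : Nonempty (RankMatroid n (s + 1)) := nonempty_rankMatroid hsn
    exact Nat.card_pos
  have h3 : (k * n ! * Nat.card (Atyp n s (n * g))) * 2 ^ g ≤ m * 2 ^ g := by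
    calc (k * n ! * Nat.card (Atyp n s (n * g))) * 2 ^ g
        = k * n ! * (Nat.card (Atyp n s (n * g)) * 2 ^ g) := by ring
      _ ≤ k * n ! * (2 ^ n * (Nat.card (LowRank n s) * (m + 1))) := Nat.mul_le_mul_left _ h2
      _ ≤ k * n ! * (2 ^ n * (Nat.card (LowRank n s) * (2 * m))) := by gcongr; omega
      _ = m * (2 * (k * n !) * (2 ^ n * Nat.card (LowRank n s))) := by ring
      _ ≤ m * 2 ^ g := Nat.mul_le_mul_left _ h1
  exact Nat.le_of_mul_le_mul_right h3 (by positivity)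

lemma arith5 {k a N : ℕ} (hk : 1 ≤ k) (haN : a ≤ N) (h2 : k * a ≤ N) :
    (k - 1) * N ≤ k * (N - a) := by
  obtain ⟨k', rfl⟩ : ∃ k', k = k' + 1 := ⟨k - 1, by omega⟩
  obtain ⟨d, rfl⟩ : ∃ d, N = a + d := ⟨N - a, by omega⟩
  rw [Nat.add_sub_cancel, Nat.add_sub_cancel_left]
  nlinarith

lemma final_arith {a k N d n B C f P t : ℕ} (hf : 0 < f) (h4 : f * B ≤ N * P)
    (h3 : d * (a * (n * P)) ≤ k * (t * f * C)) (h5 : a * N ≤ k * d) :
    a ^ 2 * (n * B) ≤ k ^ 2 * (t * C) := by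
  have h6 : f * (a ^ 2 * (n * B)) ≤ f * (k ^ 2 * (t * C)) := by
    calc f * (a ^ 2 * (n * B)) = a ^ 2 * n * (f * B) := by ring
      _ ≤ a ^ 2 * n * (N * P) := Nat.mul_le_mul_left _ h4
      _ = (a * N) * (a * (n * P)) := by ring
      _ ≤ (k * d) * (a * (n * P)) := Nat.mul_le_mul_right _ h5
      _ = k * (d * (a * (n * P))) := by ring
      _ ≤ k * (k * (t * f * C)) := Nat.mul_le_mul_left _ h3
      _ = f * (k ^ 2 * (t * C)) := by ring
  exact Nat.le_of_mul_le_mul_left h6 hf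

/-- The main inequality. -/
theorem main_ratio {k : ℕ} (hs : 2 ≤ s) (hk : 1 ≤ k) (hn : (2 * (s + 1) * k) ^ 24 ≤ n)
    {𝒩 : Finset (RankMatroid n (s + 1))} (h : IsTransversal 𝒩) :
    (k - 1) ^ 2 * (n * ∑ M ∈ 𝒩, numBases M.1) ≤
      k ^ 2 * ((s + 2) * ∑ M ∈ 𝒩, numCircuits M.1) := by
  classical
  have hrare := atyp_rare hs hk hn
  set K := (s + 2) * (2 * s + 2) * k with hK
  set g := n ^ s / (2 * K ^ 10 * (s + 1)!) with hg
  have hX1 : 1 ≤ 2 * (s + 1) * k := by nlinarith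
  have hX1n : 2 * (s + 1) * k ≤ n := by
    calc 2 * (s + 1) * k = (2 * (s + 1) * k) ^ 1 := (pow_one _).symm
      _ ≤ _ := Nat.pow_le_pow_right hX1 (by norm_num)
      _ ≤ n := hn
  have hn0 : 0 < n := by omega
  have hA := threshold hs hk hn
  rw [← hK] at hA
  -- the numerical hypothesis for typical matroids
  have hD : K ^ 10 * ((s + 1)! * (n * g) + (s + 1) ^ 2 * n ^ s) ≤ n ^ (s + 1) := by
    have h1 : 2 * K ^ 10 * (s + 1)! * g ≤ n ^ s := Nat.mul_div_le _ _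
    have h2 : 2 * K ^ 10 * (s + 1) ^ 2 ≤ n := by
      refine le_trans ?_ hA
      have h3 : 2 * K ^ 10 * (s + 1) ^ 2 ≤ (10 * s * (s + 1) * K ^ 10) * 1 := by
        have h4 : 2 * (s + 1) ≤ 10 * s := by omega
        calc 2 * K ^ 10 * (s + 1) ^ 2 = (2 * (s + 1)) * ((s + 1) * K ^ 10) := by ring
          _ ≤ (10 * s) * ((s + 1) * K ^ 10) := Nat.mul_le_mul_right _ h4
          _ = _ := by ring
      exact h3.trans (Nat.mul_le_mul_left _ (by omega))
    have h5 : 2 * (K ^ 10 * ((s + 1)! * (n * g) + (s + 1) ^ 2 * n ^ s)) ≤ 2 * n ^ (s + 1) := by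
      calc 2 * (K ^ 10 * ((s + 1)! * (n * g) + (s + 1) ^ 2 * n ^ s))
          = n * (2 * K ^ 10 * (s + 1)! * g) + (2 * K ^ 10 * (s + 1) ^ 2) * n ^ s := by ring
        _ ≤ n * n ^ s + n * n ^ s :=
            Nat.add_le_add (Nat.mul_le_mul_left _ h1) (Nat.mul_le_mul_right _ h2)
        _ = 2 * n ^ (s + 1) := by ring
    omega
  set 𝒢 := 𝒩.filter (fun M => ∃ H, (H = ∅ ∨ IsHyp M.1 s H) ∧
    n * g ≤ (Room (trunc M.1 s) s H).ncard) with h𝒢
  have h1 : 𝒢.card ≤ Nat.card (Atyp n s (n * g)) := by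
    have h2 : Nat.card {N // N ∈ 𝒢} = 𝒢.card := by
      rw [Nat.card_eq_fintype_card, Fintype.card_coe]
    rw [← h2]
    refine Nat.card_le_card_of_injective
      (fun N : {N // N ∈ 𝒢} => (⟨N.1, (Finset.mem_filter.1 N.2).2⟩ : Atyp n s (n * g))) ?_
    intro N N' hNN
    exact Subtype.ext (congrArg (fun X : Atyp n s (n * g) => X.1) hNN)
  have h2 : k * 𝒢.card ≤ 𝒩.card := by
    have h3 : (k * 𝒢.card) * n ! ≤ 𝒩.card * n ! := by
      calc (k * 𝒢.card) * n ! = k * n ! * 𝒢.card := by ring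
        _ ≤ k * n ! * Nat.card (Atyp n s (n * g)) := Nat.mul_le_mul_left _ h1
        _ ≤ Nat.card (RankMatroid n (s + 1)) := hrare
        _ ≤ _ := card_rankMatroid_le h
    exact Nat.le_of_mul_le_mul_right h3 (Nat.factorial_pos n)
  set C := ∑ M ∈ 𝒩, numCircuits M.1 with hC
  set B := ∑ M ∈ 𝒩, numBases M.1 with hB
  -- circuits
  have h3 : (𝒩.card - 𝒢.card) * ((k - 1) * n ^ (s + 2)) ≤ k * ((s + 2)! * C) := by
    have h4 : 𝒩.card - 𝒢.card = (𝒩.filter (fun M => ¬ ∃ H, (H = ∅ ∨ IsHyp M.1 s H) ∧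
        n * g ≤ (Room (trunc M.1 s) s H).ncard)).card := by
      have h5 := Finset.card_filter_add_card_filter_not (s := 𝒩)
        (fun M => ∃ H, (H = ∅ ∨ IsHyp M.1 s H) ∧ n * g ≤ (Room (trunc M.1 s) s H).ncard)
      rw [← h𝒢] at h5
      omega
    rw [h4, ← smul_eq_mul, ← Finset.sum_const, hC, Finset.mul_sum, Finset.mul_sum]
    refine le_trans ?_ (Finset.sum_le_sum_of_subset (Finset.filter_subset
      (fun M => ¬ ∃ H, (H = ∅ ∨ IsHyp M.1 s H) ∧ n * g ≤ (Room (trunc M.1 s) s H).ncard) 𝒩))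
    refine Finset.sum_le_sum ?_
    intro M hM
    rw [Finset.mem_filter] at hM
    refine typ_circuits M hn0 (by omega) hk ?_ hD
    intro H hH
    by_contra hcon
    exact hM.2 ⟨H, hH, not_lt.1 hcon⟩
  have h4 : (s + 1)! * B ≤ 𝒩.card * n ^ (s + 1) := by
    rw [hB, Finset.mul_sum, ← smul_eq_mul, ← Finset.sum_const]
    exact Finset.sum_le_sum fun M _ => fact_mul_numBases M
  have h5 : (k - 1) * 𝒩.card ≤ k * (𝒩.card - 𝒢.card) := by
    exact arith5 hk (Finset.card_le_card (Finset.filter_subset _ _)) h2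
  refine final_arith (f := (s + 1)!) (P := n ^ (s + 1)) (N := 𝒩.card) (d := 𝒩.card - 𝒢.card)
    (Nat.factorial_pos _) h4 ?_ h5
  have e1 : n ^ (s + 2) = n * n ^ (s + 1) := by rw [pow_succ n (s + 1), mul_comm]
  have e2 : (s + 2)! = (s + 2) * (s + 1)! := Nat.factorial_succ (s + 1)
  rw [e1, e2] at h3
  exact h3

/-- More circuits than bases for `n` at least a fixed power of the rank. -/
theorem main_final {r n k : ℕ} (hr : 3 ≤ r) (hk : 2 ≤ k) (hn : (2 * r * k) ^ 24 ≤ n)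
    {𝒩 : Finset (RankMatroid n r)} (h : IsTransversal 𝒩) :
    ∑ M ∈ 𝒩, numBases M.1 < ∑ M ∈ 𝒩, numCircuits M.1 ∧
    (k - 1) ^ 2 * (n * ∑ M ∈ 𝒩, numBases M.1) ≤
      k ^ 2 * ((r + 1) * ∑ M ∈ 𝒩, numCircuits M.1) := by
  obtain ⟨s, rfl⟩ : ∃ s, r = s + 1 := ⟨r - 1, by omega⟩
  refine ⟨?_, main_ratio (by omega) (by omega) hn h⟩
  have hn2 : (2 * (s + 1) * 2) ^ 24 ≤ n := by
    refine le_trans (Nat.pow_le_pow_left ?_ 24) hn
    exact Nat.mul_le_mul_left _ hk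
  have h1 := main_ratio (k := 2) (by omega) (by omega) hn2 h
  have hX1n : (2 * (s + 1) * 2) ^ 2 ≤ n :=
    (Nat.pow_le_pow_right (by omega) (by norm_num)).trans hn2
  have hrn : s + 1 ≤ n := by nlinarith
  have h2 := bases_pos hrn h
  by_contra hcon
  push Not at hcon
  set B := ∑ M ∈ 𝒩, numBases M.1
  set C := ∑ M ∈ 𝒩, numCircuits M.1
  have h3 : n * B ≤ (4 * (s + 2)) * B := by
    calc n * B = (2 - 1) ^ 2 * (n * B) := by norm_num
      _ ≤ 2 ^ 2 * ((s + 2) * C) := h1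
      _ ≤ 2 ^ 2 * ((s + 2) * B) := by gcongr
      _ = (4 * (s + 2)) * B := by ring
  have h4 := Nat.le_of_mul_le_mul_right h3 h2
  nlinarith

end Pool.Agent.Work.MP_f3d170_co_helper60b
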